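import Mathlib

set_option autoImplicit false

open Finset

namespace Pool.Agent.H550Z.Gr

variable {E : Type} [Fintype E] [DecidableEq E]

/-- product weight -/
noncomputable def wt (p : E → ℝ) (ω : E → Bool) : ℝ := ∏ e, if ω e then p e else 1 - p e

/-- expectation with respect to the product weight -/
noncomputable def Ex (p : E → ℝ) (h : (E → Bool) → ℝ) : ℝ := ∑ ω, wt p ω * h ω

def off (D : Finset E) (ω : E → Bool) : E → Bool := fun e => if e ∈ D then false else ω e

noncomputable def ind (D : Finset E) (ω : E → Bool) : ℝ := if ∀ e ∈ D, ω e = false then 1 else 0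

noncomputable def PP (p : E → ℝ) (D : Finset E) : ℝ := ∏ e ∈ D, (1 - p e)

open Classical in
/-- indicator of a proposition -/
noncomputable def I1 (P : Prop) : ℝ := if P then 1 else 0

theorem I1_pos {P : Prop} (h : P) : I1 P = 1 := by unfold I1; rw [if_pos h]

theorem I1_neg {P : Prop} (h : ¬ P) : I1 P = 0 := by unfold I1; rw [if_neg h]

theorem I1_nonneg (P : Prop) : 0 ≤ I1 P := by unfold I1; split_ifs <;> norm_num

theorem I1_le_one (P : Prop) : I1 P ≤ 1 := by unfold I1; split_ifs <;> norm_num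

theorem I1_mono {P Q : Prop} (h : P → Q) : I1 P ≤ I1 Q := by
  by_cases hP : P
  · rw [I1_pos hP, I1_pos (h hP)]
  · rw [I1_neg hP]; exact I1_nonneg Q

theorem I1_not (P : Prop) : I1 (¬ P) = 1 - I1 P := by
  by_cases hP : P
  · rw [I1_pos hP, I1_neg (not_not.2 hP)]; ring
  · rw [I1_neg hP, I1_pos hP]; ring

theorem I1_or_le (P Q : Prop) : I1 (P ∨ Q) ≤ I1 P + I1 Q := by
  by_cases hP : P
  · rw [I1_pos hP]; linarith [I1_le_one (P ∨ Q), I1_nonneg Q]
  · rw [I1_neg hP, zero_add]; exact I1_mono fun h => h.resolve_left hP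

theorem I1_exists_le {ι : Type} [Fintype ι] (P : ι → Prop) :
    I1 (∃ i, P i) ≤ ∑ i, I1 (P i) := by
  by_cases h : ∃ i, P i
  · obtain ⟨i, hi⟩ := h
    have := Finset.single_le_sum (f := fun i => I1 (P i)) (fun j _ => I1_nonneg (P j))
      (Finset.mem_univ i)
    rw [I1_pos hi] at this
    exact (I1_le_one _).trans this
  · rw [I1_neg h]; exact Finset.sum_nonneg fun j _ => I1_nonneg (P j)

theorem sum_prod_bool (f : E → Bool → ℝ) :
    ∑ ω : E → Bool, ∏ e, f e (ω e) = ∏ e, (f e true + f e false) := by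
  have := Finset.prod_univ_sum (fun _ : E => (univ : Finset Bool)) f
  rw [Fintype.piFinset_univ] at this
  rw [← this]
  simp

theorem wt_nonneg {p : E → ℝ} (hp : ∀ e, 0 ≤ p e ∧ p e ≤ 1) (ω : E → Bool) : 0 ≤ wt p ω := by
  apply Finset.prod_nonneg
  intro e _
  split_ifs
  · exact (hp e).1
  · linarith [(hp e).2]

theorem sum_wt (p : E → ℝ) : ∑ ω, wt p ω = 1 := by
  unfold wt
  rw [sum_prod_bool (fun e b => if b then p e else 1 - p e)]
  simp

theorem Ex_const (p : E → ℝ) (c : ℝ) : Ex p (fun _ => c) = c := by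
  unfold Ex
  rw [← Finset.sum_mul, sum_wt, one_mul]

theorem Ex_mono {p : E → ℝ} (hp : ∀ e, 0 ≤ p e ∧ p e ≤ 1) {h h' : (E → Bool) → ℝ}
    (hh : ∀ ω, h ω ≤ h' ω) : Ex p h ≤ Ex p h' :=
  Finset.sum_le_sum fun ω _ => mul_le_mul_of_nonneg_left (hh ω) (wt_nonneg hp ω)

theorem Ex_nonneg {p : E → ℝ} (hp : ∀ e, 0 ≤ p e ∧ p e ≤ 1) {h : (E → Bool) → ℝ}
    (hh : ∀ ω, 0 ≤ h ω) : 0 ≤ Ex p h :=
  Finset.sum_nonneg fun ω _ => mul_nonneg (wt_nonneg hp ω) (hh ω)

theorem Ex_add (p : E → ℝ) (h h' : (E → Bool) → ℝ) :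
    Ex p (fun ω => h ω + h' ω) = Ex p h + Ex p h' := by
  unfold Ex
  rw [← Finset.sum_add_distrib]
  exact Finset.sum_congr rfl fun ω _ => mul_add _ _ _

theorem Ex_sub (p : E → ℝ) (h h' : (E → Bool) → ℝ) :
    Ex p (fun ω => h ω - h' ω) = Ex p h - Ex p h' := by
  unfold Ex
  rw [← Finset.sum_sub_distrib]
  exact Finset.sum_congr rfl fun ω _ => mul_sub _ _ _

theorem Ex_mul (p : E → ℝ) (c : ℝ) (h : (E → Bool) → ℝ) :
    Ex p (fun ω => c * h ω) = c * Ex p h := by
  unfold Ex
  rw [Finset.mul_sum]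
  exact Finset.sum_congr rfl fun ω _ => by ring

theorem Ex_sum {ι : Type} (p : E → ℝ) (s : Finset ι) (h : ι → (E → Bool) → ℝ) :
    Ex p (fun ω => ∑ i ∈ s, h i ω) = ∑ i ∈ s, Ex p (h i) := by
  unfold Ex
  rw [Finset.sum_comm]
  exact Finset.sum_congr rfl fun ω _ => Finset.mul_sum _ _ _

theorem wt_mul_ind (p : E → ℝ) (D : Finset E) (ω : E → Bool) :
    wt p ω * ind D ω = PP p D * wt (fun e => if e ∈ D then 0 else p e) ω := by
  unfold ind
  split_ifs with h
  · unfold wt PP
    rw [mul_one]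
    have e1 : ∏ e ∈ D, (1 - p e) = ∏ e, if e ∈ D then (1 - p e) else 1 := by
      rw [Finset.prod_ite_mem, univ_inter]
    rw [e1, ← Finset.prod_mul_distrib]
    apply Finset.prod_congr rfl
    intro e _
    by_cases he : e ∈ D
    · simp [he, h e he]
    · simp [he]
  · push Not at h
    obtain ⟨e, he, h⟩ := h
    have : wt (fun e => if e ∈ D then 0 else p e) ω = 0 := by
      unfold wt
      apply Finset.prod_eq_zero (Finset.mem_univ e)
      have : ω e = true := by simpa using h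
      simp [this, he]
    rw [this]; simp

theorem Ex_off (p : E → ℝ) (D : Finset E) (h : (E → Bool) → ℝ) :
    Ex p (fun ω => h (off D ω)) = Ex (fun e => if e ∈ D then 0 else p e) h := by
  unfold Ex
  have e1 : ∀ ω : E → Bool, wt p ω * h (off D ω) =
      ∑ ω' : E → Bool, (∏ e, ((if ω e then p e else 1 - p e) *
        (if (if e ∈ D then false else ω e) = ω' e then 1 else 0))) * h ω' := by
    intro ω
    rw [Finset.sum_eq_single (off D ω)]
    · congr 1
      unfold wt
      apply Finset.prod_congr rfl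
      intro e _
      simp [off]
    · intro ω' _ hne
      have : ∃ e, off D ω e ≠ ω' e := by
        by_contra hc
        push Not at hc
        exact hne (funext hc).symm
      obtain ⟨e, he⟩ := this
      rw [Finset.prod_eq_zero (Finset.mem_univ e), zero_mul]
      unfold off at he
      rw [if_neg he, mul_zero]
    · intro h; exact absurd (Finset.mem_univ _) h
  simp_rw [e1]
  rw [Finset.sum_comm]
  apply Finset.sum_congr rfl
  intro ω' _
  rw [← Finset.sum_mul]
  congr 1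
  rw [sum_prod_bool (fun e b => (if b then p e else 1 - p e) *
        (if (if e ∈ D then false else b) = ω' e then 1 else 0))]
  unfold wt
  apply Finset.prod_congr rfl
  intro e _
  by_cases he : e ∈ D <;> cases hω : ω' e <;> simp [he]

theorem Ex_ind_mul (p : E → ℝ) (D : Finset E) (h : (E → Bool) → ℝ) :
    Ex p (fun ω => ind D ω * h ω) = PP p D * Ex p (fun ω => h (off D ω)) := by
  rw [Ex_off]
  unfold Ex
  rw [Finset.mul_sum]
  apply Finset.sum_congr rfl
  intro ω _
  rw [← mul_assoc, wt_mul_ind, mul_assoc]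

theorem Ex_ind (p : E → ℝ) (D : Finset E) : Ex p (ind D) = PP p D := by
  have := Ex_ind_mul p D (fun _ => 1)
  simpa [Ex_const] using this

theorem ind_nonneg (D : Finset E) (ω : E → Bool) : 0 ≤ ind D ω := by
  unfold ind; split_ifs <;> norm_num

theorem ind_le_one (D : Finset E) (ω : E → Bool) : ind D ω ≤ 1 := by
  unfold ind; split_ifs <;> norm_num

theorem ind_union (D D' : Finset E) (ω : E → Bool) : ind (D ∪ D') ω = ind D ω * ind D' ω := by
  unfold ind
  by_cases h : ∀ e ∈ D, ω e = false <;> by_cases h' : ∀ e ∈ D', ω e = false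
  · rw [if_pos h, if_pos h', if_pos]
    · norm_num
    · intro e he
      rcases mem_union.1 he with he | he
      exacts [h e he, h' e he]
  · rw [if_neg h', if_neg, mul_zero]
    exact fun hc => h' fun e he => hc e (mem_union_right _ he)
  · rw [if_neg h, if_neg, zero_mul]
    exact fun hc => h fun e he => hc e (mem_union_left _ he)
  · rw [if_neg h, if_neg, zero_mul]
    exact fun hc => h fun e he => hc e (mem_union_left _ he)

theorem ind_off_ge (D D' : Finset E) (ω : E → Bool) : ind D ω ≤ ind D (off D' ω) := by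
  unfold ind
  by_cases h : ∀ e ∈ D, ω e = false
  · rw [if_pos h, if_pos]
    intro e he
    unfold off
    split_ifs
    · rfl
    · exact h e he
  · rw [if_neg h]; split_ifs <;> norm_num

theorem ind_off_eq {D D' : Finset E} (hd : Disjoint D' D) (ω : E → Bool) :
    ind D (off D' ω) = ind D ω := by
  unfold ind
  have : (∀ e ∈ D, off D' ω e = false) ↔ ∀ e ∈ D, ω e = false := by
    apply forall₂_congr
    intro e he
    unfold off
    rw [if_neg (fun h => Finset.disjoint_left.1 hd h he)]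
  simp only [this]

theorem PP_nonneg {p : E → ℝ} (hp : ∀ e, 0 ≤ p e ∧ p e ≤ 1) (D : Finset E) : 0 ≤ PP p D :=
  Finset.prod_nonneg fun e _ => by linarith [(hp e).2]

theorem one_sub_sum_le_prod {ι : Type} [DecidableEq ι] (s : Finset ι) (a : ι → ℝ)
    (ha : ∀ i ∈ s, 0 ≤ a i ∧ a i ≤ 1) : 1 - ∑ i ∈ s, a i ≤ ∏ i ∈ s, (1 - a i) := by
  induction s using Finset.induction_on with
  | empty => simp
  | insert i s hi ih =>
    rw [sum_insert hi, prod_insert hi]
    have h1 := ih fun j hj => ha j (mem_insert_of_mem hj)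
    have h2 := ha i (mem_insert_self _ _)
    have h3 : 0 ≤ ∑ j ∈ s, a j := Finset.sum_nonneg fun j hj => (ha j (mem_insert_of_mem hj)).1
    nlinarith [mul_le_mul_of_nonneg_left h1 (sub_nonneg.2 h2.2), mul_nonneg h2.1 h3]

section Janson

variable {ι : Type} [DecidableEq ι]

noncomputable def GG (D : ι → Finset E) (θ : ι → ℝ) (F : Finset ι) (ω : E → Bool) : ℝ :=
  ∏ f ∈ F, (1 - θ f * ind (D f) ω)

theorem factor_mem (D : ι → Finset E) {θ : ι → ℝ} (hθ : ∀ f, 0 ≤ θ f ∧ θ f ≤ 1) (f : ι)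
    (ω : E → Bool) : 0 ≤ θ f * ind (D f) ω ∧ θ f * ind (D f) ω ≤ 1 :=
  ⟨mul_nonneg (hθ f).1 (ind_nonneg _ _), mul_le_one₀ (hθ f).2 (ind_nonneg _ _) (ind_le_one _ _)⟩

theorem GG_nonneg (D : ι → Finset E) {θ : ι → ℝ} (hθ : ∀ f, 0 ≤ θ f ∧ θ f ≤ 1) (F : Finset ι)
    (ω : E → Bool) : 0 ≤ GG D θ F ω :=
  Finset.prod_nonneg fun f _ => by linarith [(factor_mem D hθ f ω).2]

theorem GG_le_one (D : ι → Finset E) {θ : ι → ℝ} (hθ : ∀ f, 0 ≤ θ f ∧ θ f ≤ 1) (F : Finset ι)
    (ω : E → Bool) : GG D θ F ω ≤ 1 :=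
  Finset.prod_le_one (fun f _ => by linarith [(factor_mem D hθ f ω).2])
    (fun f _ => by linarith [(factor_mem D hθ f ω).1])

theorem GG_off_le (D : ι → Finset E) {θ : ι → ℝ} (hθ : ∀ f, 0 ≤ θ f ∧ θ f ≤ 1) (F : Finset ι)
    (D' : Finset E) (ω : E → Bool) : GG D θ F (off D' ω) ≤ GG D θ F ω := by
  apply Finset.prod_le_prod
  · intro f _; linarith [(factor_mem D hθ f (off D' ω)).2]
  · intro f _
    have := mul_le_mul_of_nonneg_left (ind_off_ge (D f) D' ω) (hθ f).1
    linarith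

theorem janson_step {p : E → ℝ} (hp : ∀ e, 0 ≤ p e ∧ p e ≤ 1) (D : ι → Finset E) {θ : ι → ℝ}
    (hθ : ∀ f, 0 ≤ θ f ∧ θ f ≤ 1) (F : Finset ι) (D0 : Finset E) :
    (PP p D0 - ∑ g ∈ F.filter (fun g => ¬ Disjoint D0 (D g)), θ g * PP p (D0 ∪ D g)) *
      Ex p (GG D θ F) ≤ Ex p (fun ω => ind D0 ω * GG D θ F ω) := by
  set N := F.filter (fun g => ¬ Disjoint D0 (D g)) with hN
  set R := F.filter (fun g => ¬ ¬ Disjoint D0 (D g)) with hR
  set c := PP p D0 - ∑ g ∈ N, θ g * PP p (D0 ∪ D g) with hc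
  have hsplit : ∀ ω, GG D θ F ω = GG D θ N ω * GG D θ R ω := fun ω =>
    (Finset.prod_filter_mul_prod_filter_not F _ _).symm
  have h0 : 0 ≤ Ex p (GG D θ F) := Ex_nonneg hp (GG_nonneg D hθ F)
  rcases lt_or_ge c 0 with hneg | hpos
  · have : 0 ≤ Ex p (fun ω => ind D0 ω * GG D θ F ω) :=
      Ex_nonneg hp fun ω => mul_nonneg (ind_nonneg _ _) (GG_nonneg D hθ F ω)
    nlinarith
  have h1 : Ex p (GG D θ F) ≤ Ex p (GG D θ R) := by
    apply Ex_mono hp
    intro ω
    rw [hsplit]
    exact mul_le_of_le_one_left (GG_nonneg D hθ R ω) (GG_le_one D hθ N ω)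
  have h2 : Ex p (fun ω => ind D0 ω * GG D θ R ω) = PP p D0 * Ex p (GG D θ R) := by
    rw [Ex_ind_mul]
    congr 2
    funext ω
    unfold GG
    apply Finset.prod_congr rfl
    intro g hg
    rw [ind_off_eq (not_not.1 (mem_filter.1 hg).2)]
  have h3 : ∀ g, Ex p (fun ω => ind (D0 ∪ D g) ω * GG D θ R ω) ≤
      PP p (D0 ∪ D g) * Ex p (GG D θ R) := by
    intro g
    rw [Ex_ind_mul]
    exact mul_le_mul_of_nonneg_left (Ex_mono hp (GG_off_le D hθ R _)) (PP_nonneg hp _)
  have h4 : Ex p (fun ω => ind D0 ω * GG D θ R ω -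
      ∑ g ∈ N, θ g * (ind (D0 ∪ D g) ω * GG D θ R ω)) ≤
      Ex p (fun ω => ind D0 ω * GG D θ F ω) := by
    apply Ex_mono hp
    intro ω
    have a1 := one_sub_sum_le_prod N (fun g => θ g * ind (D g) ω) fun g _ => factor_mem D hθ g ω
    have a2 : ∑ g ∈ N, θ g * (ind (D0 ∪ D g) ω * GG D θ R ω) =
        (ind D0 ω * GG D θ R ω) * ∑ g ∈ N, θ g * ind (D g) ω := by
      rw [Finset.mul_sum]
      apply Finset.sum_congr rfl
      intro g _
      rw [ind_union]; ring
    have a3 : 0 ≤ ind D0 ω * GG D θ R ω := mul_nonneg (ind_nonneg _ _) (GG_nonneg D hθ R ω)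
    rw [a2, hsplit]
    have := mul_le_mul_of_nonneg_left a1 a3
    unfold GG at this ⊢
    nlinarith
  rw [Ex_sub, Ex_sum, h2] at h4
  have h5 : ∑ g ∈ N, Ex p (fun ω => θ g * (ind (D0 ∪ D g) ω * GG D θ R ω)) ≤
      (∑ g ∈ N, θ g * PP p (D0 ∪ D g)) * Ex p (GG D θ R) := by
    rw [Finset.sum_mul]
    apply Finset.sum_le_sum
    intro g _
    rw [Ex_mul, mul_assoc]
    exact mul_le_mul_of_nonneg_left (h3 g) (hθ g).1
  have h6 := mul_le_mul_of_nonneg_left h1 hpos
  have h7 : c * Ex p (GG D θ R) = PP p D0 * Ex p (GG D θ R) -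
      (∑ g ∈ N, θ g * PP p (D0 ∪ D g)) * Ex p (GG D θ R) := by rw [hc]; ring
  linarith

theorem janson_aux {p : E → ℝ} (hp : ∀ e, 0 ≤ p e ∧ p e ≤ 1) (D : ι → Finset E) {θ : ι → ℝ}
    (hθ : ∀ f, 0 ≤ θ f ∧ θ f ≤ 1) (F : Finset ι) :
    Ex p (GG D θ F) ≤ Real.exp (-(∑ f ∈ F, θ f * PP p (D f)) +
      ∑ f ∈ F, ∑ g ∈ F, if f ≠ g ∧ ¬ Disjoint (D f) (D g) then
        θ f * θ g * PP p (D f ∪ D g) else 0) := by
  induction F using Finset.induction_on with
  | empty =>
    have : GG D θ ∅ = fun _ => 1 := by funext ω; simp [GG]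
    rw [this, Ex_const]; simp
  | insert i F hi ih =>
    have e1 : GG D θ (insert i F) = fun ω => GG D θ F ω - θ i * (ind (D i) ω * GG D θ F ω) := by
      funext ω
      unfold GG
      rw [prod_insert hi]; ring
    rw [e1, Ex_sub, Ex_mul]
    have h1 := janson_step hp D hθ F (D i)
    set c := PP p (D i) - ∑ g ∈ F.filter (fun g => ¬ Disjoint (D i) (D g)),
      θ g * PP p (D i ∪ D g) with hc
    have h0 : 0 ≤ Ex p (GG D θ F) := Ex_nonneg hp (GG_nonneg D hθ F)
    have h2 : Ex p (GG D θ F) - θ i * Ex p (fun ω => ind (D i) ω * GG D θ F ω) ≤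
        Real.exp (-(θ i * c)) * Ex p (GG D θ F) := by
      have a1 := mul_le_mul_of_nonneg_left h1 (hθ i).1
      have a2 := Real.add_one_le_exp (-(θ i * c))
      nlinarith [mul_le_mul_of_nonneg_right a2 h0]
    refine h2.trans ((mul_le_mul_of_nonneg_left ih (Real.exp_pos _).le).trans ?_)
    rw [← Real.exp_add]
    apply Real.exp_le_exp.2
    rw [sum_insert hi, sum_insert hi, sum_insert hi]
    have hn : ∀ f g, 0 ≤ (if f ≠ g ∧ ¬ Disjoint (D f) (D g) then
        θ f * θ g * PP p (D f ∪ D g) else 0) := by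
      intro f g
      split_ifs
      · exact mul_nonneg (mul_nonneg (hθ f).1 (hθ g).1) (PP_nonneg hp _)
      · exact le_rfl
    have a3 : ∑ f ∈ F, ∑ g ∈ F, (if f ≠ g ∧ ¬ Disjoint (D f) (D g) then
        θ f * θ g * PP p (D f ∪ D g) else 0) ≤
        ∑ f ∈ F, ∑ g ∈ insert i F, (if f ≠ g ∧ ¬ Disjoint (D f) (D g) then
        θ f * θ g * PP p (D f ∪ D g) else 0) := by
      apply Finset.sum_le_sum
      intro f _
      rw [sum_insert hi]
      linarith [hn f i]
    have a4 : ∑ g ∈ F, (if i ≠ g ∧ ¬ Disjoint (D i) (D g) then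
        θ i * θ g * PP p (D i ∪ D g) else 0) =
        θ i * ∑ g ∈ F.filter (fun g => ¬ Disjoint (D i) (D g)), θ g * PP p (D i ∪ D g) := by
      rw [Finset.sum_filter, Finset.mul_sum]
      apply Finset.sum_congr rfl
      intro g hg
      have : i ≠ g := fun h => hi (h ▸ hg)
      by_cases hd : Disjoint (D i) (D g)
      · simp [hd]
      · simp [hd, this]; ring
    have a5 := hn i i
    rw [a4, hc]
    nlinarith

/-- Weighted Janson inequality. -/
theorem janson {p : E → ℝ} (hp : ∀ e, 0 ≤ p e ∧ p e ≤ 1) (D : ι → Finset E) (w : ι → ℝ)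
    (hw : ∀ f, 0 ≤ w f) (F : Finset ι) :
    Ex p (fun ω => I1 (∀ f ∈ F, ind (D f) ω = 0)) ≤
      Real.exp (-(∑ f ∈ F, w f * PP p (D f)) +
      ∑ f ∈ F, ∑ g ∈ F, if ¬ Disjoint (D f) (D g) then w f * w g * PP p (D f ∪ D g) else 0) := by
  by_cases hne : ∀ f ∈ F, (D f).Nonempty
  swap
  · push Not at hne
    obtain ⟨f, hf, hD⟩ := hne
    have : (fun ω => I1 (∀ f ∈ F, ind (D f) ω = 0)) = fun _ => 0 := by
      funext ω
      rw [I1_neg]
      intro h
      have := h f hf
      rw [hD] at this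
      simp [ind] at this
    rw [this, Ex_const]
    exact (Real.exp_pos _).le
  set θ : ι → ℝ := fun f => w f / (1 + w f) with hθdef
  have hθ : ∀ f, 0 ≤ θ f ∧ θ f ≤ 1 := by
    intro f
    have := hw f
    exact ⟨by positivity, by rw [hθdef]; dsimp only; rw [div_le_one (by positivity)]; linarith⟩
  have hle : ∀ f, θ f ≤ w f := by
    intro f
    have := hw f
    rw [hθdef]; dsimp only
    rw [div_le_iff₀ (by positivity)]; nlinarith
  have hge : ∀ f, w f - w f * w f ≤ θ f := by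
    intro f
    have := hw f
    rw [hθdef]; dsimp only
    rw [le_div_iff₀ (by positivity)]; nlinarith [mul_nonneg this (mul_nonneg this this)]
  refine le_trans (Ex_mono hp ?_) ((janson_aux hp D hθ F).trans (Real.exp_le_exp.2 ?_))
  · intro ω
    by_cases h : ∀ f ∈ F, ind (D f) ω = 0
    · unfold GG
      rw [I1_pos h, Finset.prod_eq_one]
      intro f hf
      rw [h f hf]; ring
    · rw [I1_neg h]; exact GG_nonneg D hθ F ω
  · have : ∀ f ∈ F, -(θ f * PP p (D f)) + ∑ g ∈ F, (if f ≠ g ∧ ¬ Disjoint (D f) (D g) then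
        θ f * θ g * PP p (D f ∪ D g) else 0) ≤ -(w f * PP p (D f)) +
        ∑ g ∈ F, if ¬ Disjoint (D f) (D g) then w f * w g * PP p (D f ∪ D g) else 0 := by
      intro f hf
      rw [← Finset.add_sum_erase F _ hf, ← Finset.add_sum_erase F _ hf]
      have a1 : ¬ Disjoint (D f) (D f) := by
        rw [disjoint_self]; exact (hne f hf).ne_empty
      rw [if_neg (by simp), if_pos a1, union_self]
      have a2 : ∑ g ∈ F.erase f, (if f ≠ g ∧ ¬ Disjoint (D f) (D g) then
          θ f * θ g * PP p (D f ∪ D g) else 0) ≤ ∑ g ∈ F.erase f,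
          if ¬ Disjoint (D f) (D g) then w f * w g * PP p (D f ∪ D g) else 0 := by
        apply Finset.sum_le_sum
        intro g hg
        have hfg : f ≠ g := (ne_of_mem_erase hg).symm
        by_cases hd : Disjoint (D f) (D g)
        · simp [hd]
        · rw [if_pos ⟨hfg, hd⟩, if_pos hd]
          exact mul_le_mul_of_nonneg_right
            (mul_le_mul (hle f) (hle g) (hθ g).1 (hw f)) (PP_nonneg hp _)
      have a3 := mul_le_mul_of_nonneg_right (hge f) (PP_nonneg hp (D f))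
      nlinarith
    have := Finset.sum_le_sum this
    rw [Finset.sum_add_distrib, Finset.sum_add_distrib, Finset.sum_neg_distrib,
      Finset.sum_neg_distrib] at this
    exact this

end Janson

end Pool.Agent.H550Z.Gr
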