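import Pool.Agent.H550Z.Gr.Lower

set_option autoImplicit false

open MeasureTheory Finset Filter Topology

namespace Pool.Agent.H550Z.Gr

variable {n : ℕ} {l : ℝ → ℝ → ℝ} {m M : ℝ}

theorem gr_adj (ω : Ed n → Bool) (e : Ed n) : (gr ω).Adj e.1.1 e.1.2 ↔ ω e = true := by
  constructor
  · rintro (⟨_, h⟩ | ⟨h, _⟩)
    · exact h
    · exact absurd h (not_lt.2 e.2.le)
  · exact fun h => Or.inl ⟨e.2, h⟩

theorem gr_bij : Function.Bijective (gr : (Ed n → Bool) → SimpleGraph (Fin n)) := by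
  classical
  constructor
  · intro ω ω' h
    funext e
    have := gr_adj ω e
    rw [h, gr_adj] at this
    exact Bool.eq_iff_iff.2 this.symm
  · intro G
    refine ⟨fun e => decide (G.Adj e.1.1 e.1.2), ?_⟩
    ext i j
    constructor
    · rintro (⟨_, h⟩ | ⟨_, h⟩)
      · simpa using h
      · exact G.adj_symm (by simpa using h)
    · intro h
      rcases lt_or_gt_of_ne h.ne with h1 | h1
      · exact Or.inl ⟨h1, by simpa using h⟩
      · exact Or.inr ⟨h1, by simpa using G.adj_symm h⟩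

theorem prod_Ed {R : Type} [CommMonoid R] (f : Fin n → Fin n → R) :
    ∏ i, ∏ j, (if i < j then f i j else 1) = ∏ e : Ed n, f e.1.1 e.1.2 := by
  rw [← Finset.prod_product', ← Finset.prod_filter, Finset.univ_product_univ]
  exact Finset.prod_subtype _ (by simp) fun p : Fin n × Fin n => f p.1 p.2

theorem Ker.both (h : Ker l m M) {ε : ℝ} (hε : 0 < ε) :
    Tendsto (fun n : ℕ => PE l n fun ω =>
      I1 ((1 - ε) * (Phi l * n / (2 * Real.log n)) ≤ chi ω ∧
        (chi ω : ℝ) ≤ (1 + ε) * (Phi l * n / (2 * Real.log n)))) atTop (𝓝 1) := by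
  have hΦ : 0 < Phi l := h.pos.trans_le h.m_le_Phi
  have t1 := ((h.lower (lt_min hε one_pos) (min_le_right ε 1)).add (h.upper hε)).const_sub 1
  simp only [add_zero, sub_zero] at t1
  refine tendsto_of_tendsto_of_tendsto_of_le_of_le t1 tendsto_const_nhds (fun n => ?_) fun n => ?_
  · have hZ : 0 ≤ Phi l * n / (2 * Real.log n) := by
      have := Real.log_natCast_nonneg n
      positivity
    refine le_trans (le_of_eq ?_) (h.PE_mono (F := fun ω => 1 -
      (I1 ((chi ω : ℝ) < (1 - min ε 1) * (Phi l * n / (2 * Real.log n))) +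
       I1 ((1 + ε) * (Phi l * n / (2 * Real.log n)) < chi ω))) fun ω => ?_)
    · unfold PE
      simp only [Ex_sub, Ex_add, Ex_const]
      rw [integral_sub (integrable_const _) (by exact (h.int_PE _).add (h.int_PE _)),
        integral_add (h.int_PE _) (h.int_PE _)]
      simp
    · refine le_trans (sub_le_sub_left (I1_or_le _ _) 1) ?_
      rw [← I1_not]
      refine I1_mono fun hc => ?_
      rw [not_or, not_lt, not_lt] at hc
      refine ⟨le_trans (mul_le_mul_of_nonneg_right ?_ hZ) hc.1, hc.2⟩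
      linarith [min_le_left ε 1]
  · refine (h.PE_mono (G := fun _ => 1) fun ω => I1_le_one _).trans (le_of_eq ?_)
    unfold PE
    simp [Ex_const]

theorem ae_Icc {μ : Measure ℝ} (h : μ (Set.Icc (0 : ℝ) 1)ᶜ = 0) (S : Set ℝ) :
    ∀ᵐ x ∂(μ.restrict S), x ∈ Set.Icc (0 : ℝ) 1 := ae_restrict_of_ae h

theorem ph_congr {f g : ℝ → ℝ → ℝ}
    (hfg : ∀ x ∈ Set.Icc (0 : ℝ) 1, ∀ y ∈ Set.Icc (0 : ℝ) 1, f x y = g x y) {μ : Measure ℝ}
    (h : μ (Set.Icc (0 : ℝ) 1)ᶜ = 0) : ph f μ = ph g μ := by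
  have : ∀ S, Q f (μ.restrict S) (μ.restrict S) = Q g (μ.restrict S) (μ.restrict S) := by
    intro S
    apply integral_congr_ae
    filter_upwards [ae_Icc h S] with x hx
    apply integral_congr_ae
    filter_upwards [ae_Icc h S] with y hy
    exact hfg x hx y hy
  unfold ph phS
  simp only [this]

theorem Phi_congr {f g : ℝ → ℝ → ℝ}
    (hfg : ∀ x ∈ Set.Icc (0 : ℝ) 1, ∀ y ∈ Set.Icc (0 : ℝ) 1, f x y = g x y) : Phi f = Phi g := by
  unfold Phi
  congr 1
  ext t
  constructor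
  · rintro ⟨k, ν, α, h1, h2, h3, h4, h5, rfl⟩
    exact ⟨k, ν, α, h1, h2, h3, h4, h5,
      Finset.sum_congr rfl fun i _ => by rw [ph_congr hfg (h2 i)]⟩
  · rintro ⟨k, ν, α, h1, h2, h3, h4, h5, rfl⟩
    exact ⟨k, ν, α, h1, h2, h3, h4, h5,
      Finset.sum_congr rfl fun i _ => by rw [ph_congr hfg (h2 i)]⟩

open Classical in
theorem Ker.lint (h : Ker l m M) (W : ℝ → ℝ → ℝ)
    (hW : ∀ x ∈ Set.Icc (0 : ℝ) 1, ∀ y ∈ Set.Icc (0 : ℝ) 1, W x y = 1 - Real.exp (-l x y))
    (P : ℕ → Prop) :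
    (∫⁻ x in Set.univ.pi (fun _ : Fin n => Set.Icc (0:ℝ) 1),
      ∑' G : SimpleGraph (Fin n), (if P G.chromaticNumber.toNat then ∏ i : Fin n, ∏ j : Fin n,
        (if i < j then (if G.Adj i j then ENNReal.ofReal (W (x i) (x j))
          else ENNReal.ofReal (1 - W (x i) (x j))) else 1) else 0)) =
      ENNReal.ofReal (PE l n fun ω => I1 (P (chi ω))) := by
  unfold PE
  rw [ofReal_integral_eq_lintegral_ofReal (h.int_PE _)
    (ae_of_all _ fun x => Ex_nonneg (h.pl_mem x) fun _ => I1_nonneg _)]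
  have e1 : piM n = (volume : Measure (Fin n → ℝ)).restrict
      (Set.univ.pi (fun _ : Fin n => Set.Icc (0:ℝ) 1)) := by
    rw [volume_pi, Measure.restrict_pi_pi]
    rfl
  rw [e1]
  apply setLIntegral_congr_fun (MeasurableSet.univ_pi fun _ => measurableSet_Icc)
  intro x hx
  dsimp only
  rw [← (Equiv.ofBijective _ gr_bij).tsum_eq, tsum_fintype]
  unfold Ex
  rw [ENNReal.ofReal_sum_of_nonneg fun ω _ => mul_nonneg (wt_nonneg (h.pl_mem x) ω) (I1_nonneg _)]
  apply Finset.sum_congr rfl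
  intro ω _
  simp only [Equiv.ofBijective_apply]
  by_cases hP : P (chi ω)
  · rw [I1_pos hP, mul_one, if_pos (by exact hP), prod_Ed]
    unfold wt
    rw [ENNReal.ofReal_prod_of_nonneg fun e _ => by
      split_ifs
      · exact (h.pl_mem x e).1
      · linarith [(h.pl_mem x e).2]]
    apply Finset.prod_congr rfl
    intro e _
    rw [hW _ (hx _ (Set.mem_univ _)) _ (hx _ (Set.mem_univ _))]
    by_cases he : ω e = true
    · rw [if_pos ((gr_adj ω e).2 he), if_pos he]; rfl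
    · rw [if_neg fun hc => he ((gr_adj ω e).1 hc), if_neg he]; rfl
  · rw [I1_neg hP, mul_zero, if_neg (by exact hP), ENNReal.ofReal_zero]

theorem exists_ker (W : ℝ → ℝ → ℝ) (h1 : Measurable (Function.uncurry W))
    (h2 : ∀ x y, W x y = W y x) {c d : ℝ} (hc : 0 < c) (hd : d < 1)
    (h3 : ∀ x ∈ Set.Icc (0:ℝ) 1, ∀ y ∈ Set.Icc (0:ℝ) 1, c ≤ W x y ∧ W x y ≤ d) :
    ∃ (l : ℝ → ℝ → ℝ) (m M : ℝ), Ker l m M ∧
      (∀ x ∈ Set.Icc (0 : ℝ) 1, ∀ y ∈ Set.Icc (0 : ℝ) 1, Real.log (1 / (1 - W x y)) = l x y) ∧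
      ∀ x ∈ Set.Icc (0 : ℝ) 1, ∀ y ∈ Set.Icc (0 : ℝ) 1, W x y = 1 - Real.exp (-l x y) := by
  have hcd : c ≤ d := by
    have := h3 0 (by simp) 0 (by simp)
    linarith [this.1, this.2]
  have a1 : ∀ x y, c ≤ max c (min d (W x y)) := fun x y => le_max_left _ _
  have a2 : ∀ x y, max c (min d (W x y)) ≤ d := fun x y => max_le hcd (min_le_left _ _)
  have a3 : ∀ x ∈ Set.Icc (0:ℝ) 1, ∀ y ∈ Set.Icc (0:ℝ) 1, max c (min d (W x y)) = W x y := by
    intro x hx y hy
    rw [min_eq_right (h3 x hx y hy).2, max_eq_right (h3 x hx y hy).1]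
  have mono : ∀ s t : ℝ, s ≤ t → t < 1 → Real.log (1 / (1 - s)) ≤ Real.log (1 / (1 - t)) := by
    intro s t hst ht
    apply Real.log_le_log (one_div_pos.2 (by linarith))
    exact one_div_le_one_div_of_le (by linarith) (by linarith)
  refine ⟨fun x y => Real.log (1 / (1 - max c (min d (W x y)))), Real.log (1 / (1 - c)),
    Real.log (1 / (1 - d)), ⟨?_, fun x y => by rw [h2], ?_, fun x y => ?_, fun x y => ?_⟩,
    fun x hx y hy => by simp only [a3 x hx y hy], fun x hx y hy => ?_⟩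
  · exact (measurable_const.div (measurable_const.sub
      (measurable_const.max (measurable_const.min h1)))).log
  · apply Real.log_pos
    rw [one_lt_div (by linarith)]
    linarith
  · exact mono _ _ (a1 x y) ((a2 x y).trans_lt hd)
  · exact mono _ _ (a2 x y) hd
  · have := (h3 x hx y hy).2
    dsimp only
    rw [a3 x hx y hy, one_div, Real.log_inv, neg_neg, Real.exp_log (by linarith)]
    ring

end Pool.Agent.H550Z.Gr
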