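import Pool.Agent.H550Z.Gr.Trans

set_option autoImplicit false

open Finset

namespace Pool.Agent.H550Z.Gr

variable {n : ℕ}

def Indep (ω : Ed n → Bool) (A : Finset (Fin n)) : Prop := ∀ e ∈ ins A, ω e = false

def gr (ω : Ed n → Bool) : SimpleGraph (Fin n) where
  Adj i j := (∃ h : i < j, ω ⟨(i, j), h⟩ = true) ∨ (∃ h : j < i, ω ⟨(j, i), h⟩ = true)
  symm := ⟨fun _ _ h => h.symm⟩
  loopless := ⟨fun i h => by
    rcases h with ⟨h, _⟩ | ⟨h, _⟩ <;> exact lt_irrefl _ h⟩

noncomputable def chi (ω : Ed n → Bool) : ℕ := (gr ω).chromaticNumber.toNat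

def Cov (ω : Ed n → Bool) (U : Finset (Fin n)) (m : ℕ) : Prop :=
  ∃ c : Fin n → ℕ, (∀ v ∈ U, c v < m) ∧
    ∀ e : Ed n, e.1.1 ∈ U → e.1.2 ∈ U → ω e = true → c e.1.1 ≠ c e.1.2

theorem chi_le_of_cov {ω : Ed n → Bool} {m : ℕ} (h : Cov ω univ m) : chi ω ≤ m := by
  obtain ⟨c, h1, h2⟩ := h
  have hc : (gr ω).Colorable m := by
    refine ⟨SimpleGraph.Coloring.mk (fun v => ⟨c v, h1 v (mem_univ _)⟩) ?_⟩
    intro v w hvw heq
    have heq' : c v = c w := congrArg Fin.val heq
    rcases hvw with ⟨h, h'⟩ | ⟨h, h'⟩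
    · exact h2 ⟨(v, w), h⟩ (mem_univ _) (mem_univ _) h' heq'
    · exact h2 ⟨(w, v), h⟩ (mem_univ _) (mem_univ _) h' heq'.symm
  unfold chi
  exact ENat.toNat_le_of_le_coe hc.chromaticNumber_le

theorem cov_chi (ω : Ed n → Bool) : Cov ω univ (chi ω) := by
  have hc : (gr ω).Colorable (chi ω) := by
    have h1 : (gr ω).chromaticNumber ≠ ⊤ :=
      SimpleGraph.chromaticNumber_ne_top_iff_exists.2 ⟨_, (gr ω).colorable_of_fintype⟩
    unfold chi
    rw [← SimpleGraph.chromaticNumber_le_iff_colorable, ENat.coe_toNat h1]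
  obtain ⟨C⟩ := hc
  refine ⟨fun v => (C v : ℕ), fun v _ => (C v).2, fun e _ _ he heq => ?_⟩
  exact C.valid (v := e.1.1) (w := e.1.2) (Or.inl ⟨e.2, he⟩) (Fin.ext heq)

theorem chi_le_n (ω : Ed n → Bool) : chi ω ≤ n :=
  chi_le_of_cov ⟨fun v => v, fun v _ => v.2, fun e _ _ _ h => e.2.ne (Fin.ext h)⟩

theorem cov_mono {ω : Ed n → Bool} {U : Finset (Fin n)} {m m' : ℕ} (h : Cov ω U m)
    (hm : m ≤ m') : Cov ω U m' := by
  obtain ⟨c, h1, h2⟩ := h
  exact ⟨c, fun v hv => (h1 v hv).trans_le hm, h2⟩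

theorem cov_step {ω : Ed n → Bool} {U A : Finset (Fin n)} {m : ℕ} (hA : Indep ω A)
    (h : Cov ω (U \ A) m) : Cov ω U (m + 1) := by
  obtain ⟨c, h1, h2⟩ := h
  refine ⟨fun v => if v ∈ A then m else c v, fun v hv => ?_, fun e h3 h4 he => ?_⟩
  · dsimp only
    split_ifs with h
    · omega
    · have := h1 v (mem_sdiff.2 ⟨hv, h⟩); omega
  · dsimp only
    by_cases a1 : e.1.1 ∈ A <;> by_cases a2 : e.1.2 ∈ A
    · have := hA e (by simp [ins, a1, a2])
      rw [this] at he; exact absurd he (by simp)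
    · rw [if_pos a1, if_neg a2]
      have := h1 _ (mem_sdiff.2 ⟨h4, a2⟩); omega
    · rw [if_neg a1, if_pos a2]
      have := h1 _ (mem_sdiff.2 ⟨h3, a1⟩); omega
    · rw [if_neg a1, if_neg a2]
      exact h2 e (mem_sdiff.2 ⟨h3, a1⟩) (mem_sdiff.2 ⟨h4, a2⟩) he

theorem cov_card (ω : Ed n → Bool) (U : Finset (Fin n)) : Cov ω U U.card := by
  induction U using Finset.induction_on with
  | empty => exact ⟨fun _ => 0, by simp, by simp⟩
  | insert v U hv ih =>
    rw [card_insert_of_notMem hv]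
    apply cov_step (A := {v})
    · intro e he
      simp only [ins, mem_filter, mem_univ, true_and, mem_singleton] at he
      exact absurd (he.1.trans he.2.symm) e.2.ne
    · rwa [Finset.insert_sdiff_of_mem _ (mem_singleton_self v), Finset.sdiff_singleton_eq_erase,
        Finset.erase_eq_of_notMem hv]

theorem cov_crude {ω : Ed n → Bool} {k s : ℕ} (hk : 0 < k)
    (H : ∀ U : Finset (Fin n), s ≤ U.card → ∃ A ⊆ U, Indep ω A ∧ A.card = k)
    (U : Finset (Fin n)) : Cov ω U (U.card / k + s) := by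
  induction h : U.card using Nat.strong_induction_on generalizing U with
  | _ m ih =>
    rcases lt_or_ge m s with hs | hs
    · exact cov_mono (cov_card ω U) (by rw [h]; exact hs.le.trans (Nat.le_add_left _ _))
    · obtain ⟨A, hAU, hA, hc⟩ := H U (h ▸ hs)
      have h1 : (U \ A).card = m - k := by rw [card_sdiff_of_subset hAU, h, hc]
      have h2 : k ≤ m := by rw [← h, ← hc]; exact card_le_card hAU
      have h3 := cov_step hA (ih (m - k) (by omega) (U \ A) h1)
      have h4 : m / k = (m - k) / k + 1 := Nat.div_eq_sub_div hk h2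
      rw [h4]
      exact cov_mono h3 (by omega)

section Cells

variable {L : ℕ} (cell : Fin n → Fin L)

def cnt (U : Finset (Fin n)) (a : Fin L) : ℕ := (U.filter fun v => cell v = a).card

theorem card_eq_sum_cnt (U : Finset (Fin n)) : U.card = ∑ a, cnt cell U a :=
  Finset.card_eq_sum_card_fiberwise (fun _ _ => mem_coe.2 (mem_univ _))

theorem cnt_mono {U A : Finset (Fin n)} (h : A ⊆ U) (a : Fin L) : cnt cell A a ≤ cnt cell U a :=
  card_le_card (filter_subset_filter _ h)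

theorem cnt_sdiff {U A : Finset (Fin n)} (h : A ⊆ U) (a : Fin L) :
    cnt cell (U \ A) a + cnt cell A a = cnt cell U a := by
  unfold cnt
  rw [← card_sdiff_add_card_eq_card (filter_subset_filter (fun v => cell v = a) h)]
  congr 2
  ext v
  simp only [mem_filter, mem_sdiff]
  tauto

theorem cov_rep {ω : Ed n → Bool} (ρ k : Fin L → ℕ)
    (H : ∀ U : Finset (Fin n), (∀ a, ρ a ≤ cnt cell U a) →
      ∃ A ⊆ U, Indep ω A ∧ ∀ a, cnt cell A a = k a) (R : ℕ) (U : Finset (Fin n))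
    (hU : ∀ a, ρ a + R * k a ≤ cnt cell U a) :
    ∃ U' : Finset (Fin n), (∀ a, cnt cell U' a + R * k a = cnt cell U a) ∧
      ∀ m, Cov ω U' m → Cov ω U (m + R) := by
  induction R generalizing U with
  | zero => exact ⟨U, by simp, fun m h => h⟩
  | succ R ih =>
    obtain ⟨A, hAU, hA, hc⟩ := H U fun a => le_trans (Nat.le_add_right _ _) (hU a)
    obtain ⟨U', h1, h2⟩ := ih (U \ A) fun a => by
      have a1 := cnt_sdiff cell hAU a
      have a2 := hU a
      rw [hc a] at a1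
      rw [Nat.succ_mul] at a2
      omega
    refine ⟨U', fun a => ?_, fun m hm => cov_step hA (h2 m hm)⟩
    have a1 := cnt_sdiff cell hAU a
    have a2 := h1 a
    rw [hc a] at a1
    rw [Nat.succ_mul]
    omega

theorem cov_all {ι : Type} [DecidableEq ι] {ω : Ed n → Bool} (ρ : Fin L → ℕ) (k : ι → Fin L → ℕ)
    (H : ∀ i, ∀ U : Finset (Fin n), (∀ a, ρ a ≤ cnt cell U a) →
      ∃ A ⊆ U, Indep ω A ∧ ∀ a, cnt cell A a = k i a) (R : ι → ℕ) (s : Finset ι)
    (U : Finset (Fin n)) (hU : ∀ a, ρ a + ∑ i ∈ s, R i * k i a ≤ cnt cell U a) :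
    ∃ U' : Finset (Fin n), (∀ a, cnt cell U' a + ∑ i ∈ s, R i * k i a = cnt cell U a) ∧
      ∀ m, Cov ω U' m → Cov ω U (m + ∑ i ∈ s, R i) := by
  induction s using Finset.induction_on generalizing U with
  | empty => exact ⟨U, by simp, fun m h => by simpa using h⟩
  | insert i s hi ih =>
    simp only [sum_insert hi] at hU ⊢
    obtain ⟨U1, h1, h2⟩ := cov_rep cell ρ (k i) (H i) (R i) U fun a => by
      have := hU a; omega
    obtain ⟨U2, h3, h4⟩ := ih U1 fun a => by
      have := hU a; have := h1 a; omega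
    refine ⟨U2, fun a => ?_, fun m hm => cov_mono (h2 _ (h4 m hm)) (by omega)⟩
    have := h1 a; have := h3 a; omega

theorem exists_emb (k : Fin L → ℕ) (r : ℕ) (U : Finset (Fin n))
    (hU : ∀ a, r * k a ≤ cnt cell U a) :
    ∃ e : (Σ a, Fin (k a)) × Fin r → Fin n, Function.Injective e ∧
      ∀ x, e x ∈ U ∧ cell (e x) = x.1.1 := by
  have h1 : ∀ a, Nonempty (Fin (k a) × Fin r ↪ (U.filter fun v => cell v = a)) := by
    intro a
    apply Function.Embedding.nonempty_of_card_le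
    rw [Fintype.card_prod, Fintype.card_fin, Fintype.card_fin, Fintype.card_coe, mul_comm]
    exact hU a
  let f := fun a => (h1 a).some
  refine ⟨fun x => (f x.1.1 (x.1.2, x.2) : Fin n), ?_, fun x => ?_⟩
  · rintro ⟨⟨a, i⟩, s⟩ ⟨⟨b, j⟩, t⟩ h
    dsimp only at h
    have ha := (mem_filter.1 (f a (i, s)).2).2
    have hb := (mem_filter.1 (f b (j, t)).2).2
    have hab : a = b := by rw [← ha, ← hb, h]
    subst hab
    have := (f a).injective (Subtype.ext h)
    rw [Prod.mk.injEq] at this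
    rw [this.1, this.2]
  · exact mem_filter.1 (f x.1.1 (x.1.2, x.2)).2

theorem cnt_img (k : Fin L → ℕ) {r : ℕ} {e : (Σ a, Fin (k a)) × Fin r → Fin n}
    (he : Function.Injective e) (hc : ∀ x, cell (e x) = x.1.1) (g : (Σ a, Fin (k a)) → Fin r)
    (a : Fin L) : cnt cell (img e g univ) a = k a := by
  have h1 : (img e g univ).filter (fun v => cell v = a) =
      img e g (univ.filter fun σ => σ.1 = a) := by
    ext v
    simp only [img, mem_filter, mem_image, mem_univ, true_and]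
    constructor
    · rintro ⟨⟨σ, rfl⟩, h⟩
      exact ⟨σ, by rw [← h, hc], rfl⟩
    · rintro ⟨σ, h, rfl⟩
      exact ⟨⟨σ, rfl⟩, by rw [hc, h]⟩
  unfold cnt
  rw [h1, img_card he]
  have h2 : (univ.filter fun σ : (Σ a, Fin (k a)) => σ.1 = a) =
      univ.map ⟨Sigma.mk a, sigma_mk_injective⟩ := by
    ext ⟨b, j⟩
    simp only [mem_filter, mem_univ, true_and, mem_map, Function.Embedding.coeFn_mk]
    constructor
    · rintro rfl; exact ⟨j, rfl⟩
    · rintro ⟨i, h⟩; exact (congrArg Sigma.fst h).symm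
  rw [h2, card_map, card_univ, Fintype.card_fin]

theorem c2_mono {h : Fin n → Fin n → ℝ} (hh : ∀ v w, 0 ≤ h v w) {A B : Finset (Fin n)}
    (hAB : A ⊆ B) : c2 h A ≤ c2 h B := by
  unfold c2
  have hn : ∀ v w, 0 ≤ (if v = w then 0 else h v w) := fun v w => by
    split_ifs
    · exact le_rfl
    · exact hh v w
  refine le_trans (Finset.sum_le_sum fun v _ =>
    Finset.sum_le_sum_of_subset_of_nonneg hAB fun w _ _ => hn v w) ?_
  exact Finset.sum_le_sum_of_subset_of_nonneg hAB fun v _ _ =>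
    Finset.sum_nonneg fun w _ => hn v w

theorem stage {l : Fin n → Fin n → ℝ} (hl : ∀ v w, 0 ≤ l v w) (k : Fin L → ℕ) {r : ℕ}
    (hr : 0 < r) (h : Fin n → Fin n → ℝ) (hh : ∀ v w, 0 ≤ h v w) {H : ℝ} (hH0 : 0 < H)
    (hH : c2 h univ ≤ H) {kk B : ℝ} (hk : 0 < kk) (hS : ((∑ a, k a : ℕ) : ℝ) ≤ kk) (hB : 0 < B)
    (hc : ∀ T : Finset (Fin n), (∀ a, cnt cell T a ≤ k a) → c2 h T ≤ 2 * H / (r : ℝ) ^ 2 →
      2 ≤ T.card → Real.exp (cost l T) ≤ B * ((r : ℝ) / kk) ^ T.card) :
    Ex (pl l) (fun ω => I1 (∃ U : Finset (Fin n), (∀ a, r * k a ≤ cnt cell U a) ∧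
      ¬ ∃ A ⊆ U, Indep ω A ∧ ∀ a, cnt cell A a = k a)) ≤
      2 ^ n * Real.exp (-(1 / (24 * B))) := by
  refine (Ex_mono (pl_mem hl) fun ω => I1_exists_le _).trans ?_
  rw [Ex_sum]
  have : ∀ U : Finset (Fin n), Ex (pl l) (fun ω => I1 ((∀ a, r * k a ≤ cnt cell U a) ∧
      ¬ ∃ A ⊆ U, Indep ω A ∧ ∀ a, cnt cell A a = k a)) ≤ Real.exp (-(1 / (24 * B))) := by
    intro U
    by_cases hU : ∀ a, r * k a ≤ cnt cell U a
    swap
    · refine le_trans (Ex_mono (pl_mem hl) (h' := fun _ => 0) fun ω => ?_) ?_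
      · rw [I1_neg fun hc => hU hc.1]
      · rw [Ex_const]; exact (Real.exp_pos _).le
    obtain ⟨e, he, hx⟩ := exists_emb cell k r U hU
    have hF := markov_half hr he h hh hH0 hH
    refine le_trans (Ex_mono (pl_mem hl) fun ω => I1_mono ?_) (trans_bound hl hr he _ hF hk
      (by rw [Fintype.card_sigma]; simpa using hS) hB ?_)
    · rintro ⟨-, hno⟩ g _
      unfold ind
      rw [if_neg]
      intro hI
      refine hno ⟨img e g univ, ?_, hI, cnt_img cell k he (fun x => (hx x).2) g⟩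
      intro v hv
      obtain ⟨σ, _, rfl⟩ := mem_image.1 hv
      exact (hx _).1
    · intro g hg J hJ
      have hsub : img e g J ⊆ img e g univ := image_subset_image (subset_univ _)
      rw [← img_card he g J] at hJ ⊢
      apply hc _ _ ((c2_mono hh hsub).trans (mem_filter.1 hg).2) hJ
      intro a
      rw [← cnt_img cell k he (fun x => (hx x).2) g a]
      exact cnt_mono cell hsub a
  refine (Finset.sum_le_sum fun U _ => this U).trans ?_
  rw [sum_const, card_univ, Fintype.card_finset, Fintype.card_fin, nsmul_eq_mul]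
  simp

theorem c2_block (lb : Fin L → Fin L → ℝ) (hlb : ∀ a b, 0 ≤ lb a b) (T : Finset (Fin n)) :
    c2 (fun v w => lb (cell v) (cell w)) T ≤
      ∑ a, ∑ b, (cnt cell T a : ℝ) * (cnt cell T b : ℝ) * lb a b := by
  have h1 : c2 (fun v w => lb (cell v) (cell w)) T ≤ ∑ v ∈ T, ∑ w ∈ T, lb (cell v) (cell w) := by
    unfold c2
    apply Finset.sum_le_sum
    intro v _
    apply Finset.sum_le_sum
    intro w _
    split_ifs
    · exact hlb _ _
    · exact le_rfl
  refine h1.trans (le_of_eq ?_)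
  have h2 : ∀ f : Fin L → ℝ, ∑ v ∈ T, f (cell v) = ∑ a, (cnt cell T a : ℝ) * f a := by
    intro f
    rw [← Finset.sum_fiberwise (s := T) (g := cell)]
    apply Finset.sum_congr rfl
    intro a _
    rw [Finset.sum_congr rfl (g := fun _ => f a) fun v hv => by rw [(mem_filter.1 hv).2],
      sum_const, nsmul_eq_mul]
    rfl
  rw [h2 (fun a => ∑ w ∈ T, lb a (cell w))]
  apply Finset.sum_congr rfl
  intro a _
  rw [h2 (fun b => lb a b), Finset.mul_sum]
  apply Finset.sum_congr rfl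
  intro b _
  ring

end Cells

end Pool.Agent.H550Z.Gr
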