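import Pool.Agent.H550Z.Gr.Greedy

set_option autoImplicit false

open Finset Filter Topology

namespace Pool.Agent.H550Z.Gr

variable {n : ℕ}

theorem I1_indep (ω : Ed n → Bool) (T : Finset (Fin n)) : I1 (Indep ω T) = ind (ins T) ω := by
  unfold ind
  split_ifs with h
  · exact I1_pos h
  · exact I1_neg h

theorem first_moment {l : Fin n → Fin n → ℝ} (hl : ∀ v w, 0 ≤ l v w) (θ : ℝ) :
    Ex (pl l) (fun ω => I1 (∃ T : Finset (Fin n), Indep ω T ∧ θ * T.card < cost l T)) ≤
      Real.exp (n * Real.exp (-θ)) - 1 := by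
  refine (Ex_mono (pl_mem hl) fun ω => I1_exists_le _).trans ?_
  rw [Ex_sum]
  have h1 : ∀ T : Finset (Fin n), Ex (pl l) (fun ω => I1 (Indep ω T ∧ θ * T.card < cost l T)) ≤
      Real.exp (-θ) ^ T.card - if T = ∅ then 1 else 0 := by
    intro T
    by_cases hc : θ * T.card < cost l T
    · have hT : T ≠ ∅ := by
        rintro rfl
        simp [cost_eq] at hc
      rw [if_neg hT, sub_zero]
      refine le_trans (Ex_mono (pl_mem hl) (h' := ind (ins T)) fun ω => ?_) ?_
      · rw [← I1_indep]; exact I1_mono fun h => h.1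
      · rw [Ex_ind, PP_ins, ← Real.exp_nat_mul]
        apply Real.exp_le_exp.2
        linarith
    · refine le_trans (Ex_mono (pl_mem hl) (h' := fun _ => 0) fun ω => ?_) ?_
      · rw [I1_neg fun h => hc h.2]
      · rw [Ex_const]
        split_ifs with h
        · simp [h]
        · rw [sub_zero]; positivity
  refine (Finset.sum_le_sum fun T _ => h1 T).trans ?_
  rw [Finset.sum_sub_distrib]
  have h2 := Finset.prod_one_add (f := fun _ : Fin n => Real.exp (-θ)) univ
  rw [Finset.powerset_univ] at h2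
  simp only [prod_const, card_univ, Fintype.card_fin] at h2
  rw [← h2]
  have h3 : (1 + Real.exp (-θ)) ^ n ≤ Real.exp (n * Real.exp (-θ)) := by
    rw [Real.exp_nat_mul]
    apply pow_le_pow_left₀ (by positivity)
    linarith [Real.add_one_le_exp (Real.exp (-θ))]
  simp only [Finset.sum_ite_eq', mem_univ, if_true]
  linarith

theorem rounding (l : Fin n → Fin n → ℝ) (A : Finset (Fin n)) (θ : ℝ)
    (H : ∀ T ⊆ A, c2 l T ≤ θ * T.card) (y : Fin n → ℝ) (hy : ∀ v, 0 ≤ y v ∧ y v ≤ 1) :
    ∑ v ∈ A, ∑ w ∈ A, (if v = w then 0 else y v * y w * l v w) ≤ θ * ∑ v ∈ A, y v := by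
  have hp : ∀ v, 0 ≤ 1 - y v ∧ 1 - y v ≤ 1 := fun v => ⟨by linarith [(hy v).2], by linarith [(hy v).1]⟩
  have h1 := Ex_mono hp (h := fun ω => c2 l (A.filter fun v => ω v = false))
    (h' := fun ω => θ * ((A.filter fun v => ω v = false).card : ℝ))
    fun ω => H _ (filter_subset _ _)
  have h2 : (fun ω : Fin n → Bool => c2 l (A.filter fun v => ω v = false)) = fun ω =>
      ∑ v ∈ A, ∑ w ∈ A, (if v = w then 0 else l v w) * ind {v, w} ω := by
    funext ω
    unfold c2
    rw [Finset.sum_filter]
    apply Finset.sum_congr rfl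
    intro v _
    rw [Finset.sum_filter]
    by_cases hv : ω v = false
    · rw [if_pos hv]
      apply Finset.sum_congr rfl
      intro w _
      by_cases hw : ω w = false <;> simp [ind, hv, hw]
    · rw [if_neg hv]
      symm
      apply Finset.sum_eq_zero
      intro w _
      simp [ind, hv]
  have h3 : (fun ω : Fin n → Bool => θ * ((A.filter fun v => ω v = false).card : ℝ)) = fun ω =>
      θ * ∑ v ∈ A, ind {v} ω := by
    funext ω
    rw [Finset.card_filter]
    push_cast
    congr 1
    apply Finset.sum_congr rfl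
    intro v _
    simp [ind]
  rw [h2, h3, Ex_mul, Ex_sum, Ex_sum] at h1
  refine le_trans (le_of_eq ?_) (h1.trans (le_of_eq ?_))
  · apply Finset.sum_congr rfl
    intro v _
    rw [Ex_sum]
    apply Finset.sum_congr rfl
    intro w _
    rw [Ex_mul, Ex_ind]
    by_cases hvw : v = w
    · simp [hvw]
    · unfold PP
      rw [if_neg hvw, if_neg hvw, Finset.prod_pair hvw]; ring
  · congr 1
    apply Finset.sum_congr rfl
    intro v _
    rw [Ex_ind]
    simp [PP]

theorem indep_mono {ω : Ed n → Bool} {A T : Finset (Fin n)} (hA : Indep ω A) (h : T ⊆ A) :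
    Indep ω T := by
  intro e he
  apply hA
  simp only [ins, mem_filter, mem_univ, true_and] at he ⊢
  exact ⟨h he.1, h he.2⟩

/-- colour classes of an optimal colouring -/
theorem exists_classes (ω : Ed n → Bool) : ∃ c : Fin n → Fin n, (∀ v, (c v : ℕ) < chi ω) ∧
    ∀ j, Indep ω (univ.filter fun v => c v = j) := by
  obtain ⟨c, h1, h2⟩ := cov_chi ω
  refine ⟨fun v => ⟨c v, (h1 v (mem_univ _)).trans_le (chi_le_n ω)⟩, fun v => h1 v (mem_univ _),
    fun j e he => ?_⟩
  simp only [ins, mem_filter, mem_univ, true_and] at he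
  by_contra hc
  have hc' : ω e = true := by simpa using hc
  exact h2 e (mem_univ _) (mem_univ _) hc' (congrArg Fin.val (he.1.trans he.2.symm))

end Pool.Agent.H550Z.Gr
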