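import Pool.Agent.H550Z.Gr.Prob
import Pool.Agent.H550Z.Gr.Lower0

set_option autoImplicit false

open MeasureTheory Finset Filter Topology

namespace Pool.Agent.H550Z.Gr

variable {n L : ℕ}

/-- Lebesgue measure conditioned on a cell -/
noncomputable def cm (cell : ℝ → Fin L) (a : Fin L) : Measure ℝ :=
  if lam (cell ⁻¹' {a}) = 0 then lam else ProbabilityTheory.cond lam (cell ⁻¹' {a})

instance (cell : ℝ → Fin L) (a : Fin L) : IsProbabilityMeasure (cm cell a) := by
  unfold cm
  split_ifs with h
  · infer_instance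
  · exact ProbabilityTheory.cond_isProbabilityMeasure h

theorem cm_compl (cell : ℝ → Fin L) (a : Fin L) : cm cell a (Set.Icc (0 : ℝ) 1)ᶜ = 0 := by
  unfold cm
  split_ifs with h
  · exact lam_compl
  · exact ProbabilityTheory.cond_absolutelyContinuous lam_compl

theorem cm_smul (cell : ℝ → Fin L) (a : Fin L) :
    lam (cell ⁻¹' {a}) • cm cell a = lam.restrict (cell ⁻¹' {a}) := by
  unfold cm
  split_ifs with h
  · rw [h, zero_smul, Measure.restrict_eq_zero.2 h]
  · unfold ProbabilityTheory.cond
    rw [smul_smul, ENNReal.mul_inv_cancel h (measure_ne_top _ _), one_smul]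

theorem sum_restrict {cell : ℝ → Fin L} (hc : Measurable cell) :
    ∑ a, lam.restrict (cell ⁻¹' {a}) = lam := by
  ext S hS
  rw [Measure.finsetSum_apply]
  have h1 : ∀ a, lam.restrict (cell ⁻¹' {a}) S = lam.restrict S (cell ⁻¹' {a}) := fun a => by
    rw [Measure.restrict_apply hS, Measure.restrict_apply (hc (measurableSet_singleton a)),
      Set.inter_comm]
  simp only [h1]
  rw [sum_measure_preimage_singleton _ fun a _ => hc (measurableSet_singleton a)]
  simp

theorem sum_cm {cell : ℝ → Fin L} (hc : Measurable cell) (S : Set ℝ) :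
    ∑ a, lam.real (cell ⁻¹' {a}) * (cm cell a).real S = lam.real S := by
  conv_rhs => rw [← sum_restrict hc, Measure.real, Measure.finsetSum_apply,
      ENNReal.toReal_sum fun i _ => measure_ne_top _ _]
  apply Finset.sum_congr rfl
  intro a _
  rw [← cm_smul, Measure.smul_apply, smul_eq_mul, ENNReal.toReal_mul]
  rfl

noncomputable def ebar (l : ℝ → ℝ → ℝ) (cell : ℝ → Fin L) (lb : Fin L → Fin L → ℝ)
    (a b : Fin L) : ℝ := Q (fun s t => |l s t - lb a b|) (cm cell a) (cm cell b)

theorem Q_ebar {l : ℝ → ℝ → ℝ} (hl : BM l) {cell : ℝ → Fin L} (hc : Measurable cell)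
    (lb : Fin L → Fin L → ℝ) : Q (fun x y => ebar l cell lb (cell x) (cell y)) lam lam =
      Q (fun x y => |l x y - lb (cell x) (cell y)|) lam lam := by
  rw [Q_cell hc]
  conv_rhs => rw [← sum_restrict hc, Q_sum (hl.absub (BM.cell hc lb))]
  apply Finset.sum_congr rfl
  intro a _
  apply Finset.sum_congr rfl
  intro b _
  have h1 := Q_smul (fun s t => |l s t - lb a b|) (lam (cell ⁻¹' {a})) (lam (cell ⁻¹' {b}))
    (cm cell a) (cm cell b)
  rw [cm_smul, cm_smul] at h1
  refine h1.symm.trans ?_
  unfold Q
  apply setIntegral_congr_fun (hc (measurableSet_singleton a))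
  intro s hs
  apply setIntegral_congr_fun (hc (measurableSet_singleton b))
  intro t ht
  have h2 : cell s = a := hs
  have h3 : cell t = b := ht
  simp only [h2, h3]

/-- average of the conditioned measures over a vertex class -/
noncomputable def nuA (cell : ℝ → Fin L) (z : Fin n → Fin L) (A : Finset (Fin n)) : Measure ℝ :=
  if A = ∅ then lam else (A.card : ENNReal)⁻¹ • ∑ i ∈ A, cm cell (z i)

theorem nuA_smul (cell : ℝ → Fin L) (z : Fin n → Fin L) (A : Finset (Fin n)) :
    (A.card : ENNReal) • nuA cell z A = ∑ i ∈ A, cm cell (z i) := by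
  unfold nuA
  split_ifs with h
  · simp [h]
  · rw [smul_smul, ENNReal.mul_inv_cancel (by simpa using h) (by simp), one_smul]

theorem nuA_real (cell : ℝ → Fin L) (z : Fin n → Fin L) (A : Finset (Fin n)) (S : Set ℝ) :
    A.card * (nuA cell z A).real S = ∑ i ∈ A, (cm cell (z i)).real S := by
  have := congrArg (fun μ : Measure ℝ => (μ S).toReal) (nuA_smul cell z A)
  simp only [Measure.smul_apply, smul_eq_mul, ENNReal.toReal_mul, ENNReal.toReal_natCast,
    Measure.finsetSum_apply] at this
  rw [ENNReal.toReal_sum fun i _ => measure_ne_top _ _] at this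
  exact this

instance (cell : ℝ → Fin L) (z : Fin n → Fin L) (A : Finset (Fin n)) :
    IsProbabilityMeasure (nuA cell z A) := by
  unfold nuA
  split_ifs with h
  · infer_instance
  · constructor
    simp only [Measure.smul_apply, smul_eq_mul, Measure.finsetSum_apply, measure_univ, sum_const,
      nsmul_eq_mul, mul_one]
    exact ENNReal.inv_mul_cancel (by simpa using h) (by simp)

theorem nuA_compl (cell : ℝ → Fin L) (z : Fin n → Fin L) (A : Finset (Fin n)) :
    nuA cell z A (Set.Icc (0 : ℝ) 1)ᶜ = 0 := by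
  unfold nuA
  split_ifs with h
  · exact lam_compl
  · simp [Measure.finsetSum_apply, cm_compl]

variable {l : ℝ → ℝ → ℝ} {m M : ℝ}

theorem restrict_finsum {ι : Type} (s : Finset ι) (μ : ι → Measure ℝ) (S : Set ℝ) :
    (∑ i ∈ s, μ i).restrict S = ∑ i ∈ s, (μ i).restrict S := by
  classical
  induction s using Finset.induction_on with
  | empty => simp
  | insert i s hi ih => rw [sum_insert hi, sum_insert hi, Measure.restrict_add, ih]

theorem Ker.class_bound (h : Ker l m M) (cell : ℝ → Fin L) (lb : Fin L → Fin L → ℝ)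
    (x : Fin n → ℝ) (A : Finset (Fin n)) {θ : ℝ} (hθ : 0 ≤ θ)
    (H : ∀ T ⊆ A, c2 (lx l x) T ≤ θ * T.card)
    (hx : c2 (lx (fun s t => |l s t - lb (cell s) (cell t)| + ebar l cell lb (cell s) (cell t)) x)
      univ ≤ 1) :
    A.card * ph l (nuA cell (fun v => cell (x v)) A) ≤ θ + M + 1 := by
  have hM := h.Mpos
  rcases Nat.eq_zero_or_pos A.card with h0 | h0
  · rw [h0]; simp; positivity
  have hA : (0 : ℝ) < A.card := by exact_mod_cast h0
  rw [← le_div_iff₀' hA]
  refine ph_le _ (by positivity) fun S hS => ?_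
  set ν := nuA cell (fun v => cell (x v)) A with hν
  set y : Fin n → ℝ := fun i => (cm cell (cell (x i))).real S with hy
  have y0 : ∀ i, 0 ≤ y i ∧ y i ≤ 1 := fun i => ⟨measureReal_nonneg, measureReal_le_one⟩
  have a1 : A.card * ν.real S = ∑ i ∈ A, y i := nuA_real cell _ A S
  have a2 : (A.card : ℝ) * A.card * Q l (ν.restrict S) (ν.restrict S) = ∑ i ∈ A, ∑ j ∈ A,
      Q l ((cm cell (cell (x i))).restrict S) ((cm cell (cell (x j))).restrict S) := by
    have b1 := Q_smul l A.card A.card (ν.restrict S) (ν.restrict S)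
    rw [← Measure.restrict_smul, hν, nuA_smul, restrict_finsum, Q_sum h.bm,
      ENNReal.toReal_natCast] at b1
    exact b1.symm
  have hY : 0 ≤ ∑ i ∈ A, y i := Finset.sum_nonneg fun i _ => (y0 i).1
  have a3 : (A.card : ℝ) * A.card * Q l (ν.restrict S) (ν.restrict S) ≤
      (θ + M + 1) * ∑ i ∈ A, y i := by
    rw [a2]
    rcases le_total (∑ i ∈ A, y i) 1 with h1 | h1
    · have b1 : ∑ i ∈ A, ∑ j ∈ A,
          Q l ((cm cell (cell (x i))).restrict S) ((cm cell (cell (x j))).restrict S) ≤
          ∑ i ∈ A, ∑ j ∈ A, y i * y j * M :=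
        Finset.sum_le_sum fun i _ => Finset.sum_le_sum fun j _ => h.Q_le _ _ S
      simp only [← Finset.sum_mul, ← Finset.mul_sum] at b1
      nlinarith [mul_le_mul_of_nonneg_left h1 (mul_nonneg hY hM.le), mul_nonneg hY hθ]
    · have b1 : ∀ i j, Q l ((cm cell (cell (x i))).restrict S) ((cm cell (cell (x j))).restrict S) ≤
          (if i = j then M * y i else 0) + (if i = j then 0 else y i * y j * lx l x i j) +
          (if i = j then 0 else lx (fun s t => |l s t - lb (cell s) (cell t)| +
            ebar l cell lb (cell s) (cell t)) x i j) := by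
        intro i j
        by_cases hij : i = j
        · subst hij
          simp only [if_true, add_zero]
          exact h.Q_le' _ S
        · simp only [hij, if_false, zero_add, lx]
          have c1 := h.bm.absub (BM.const (lb (cell (x i)) (cell (x j))))
          have c2 := Q_mono h.bm ((BM.const (lb (cell (x i)) (cell (x j)))).add c1) (fun s t => by
            linarith [le_abs_self (l s t - lb (cell (x i)) (cell (x j)))])
            ((cm cell (cell (x i))).restrict S) ((cm cell (cell (x j))).restrict S)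
          rw [Q_add (BM.const _) c1, Q_const, measureReal_restrict_apply_univ,
            measureReal_restrict_apply_univ] at c2
          have c3 := Q_mono_meas c1 (fun _ _ => abs_nonneg _)
            (Measure.restrict_le_self (μ := cm cell (cell (x i))) (s := S))
            (Measure.restrict_le_self (μ := cm cell (cell (x j))) (s := S))
          have c4 : 0 ≤ y i * y j := mul_nonneg (y0 i).1 (y0 j).1
          have c5 : y i * y j ≤ 1 := mul_le_one₀ (y0 i).2 (y0 j).1 (y0 j).2
          have c6 := neg_abs_le (l (x i) (x j) - lb (cell (x i)) (cell (x j)))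
          have c7 := abs_nonneg (l (x i) (x j) - lb (cell (x i)) (cell (x j)))
          have c8 := mul_le_mul_of_nonneg_left c6 c4
          have c9 := mul_le_mul_of_nonneg_right c5 c7
          change _ ≤ y i * y j * _ + _ at c2
          unfold ebar
          linarith
      refine (Finset.sum_le_sum fun i _ => Finset.sum_le_sum fun j _ => b1 i j).trans ?_
      simp only [Finset.sum_add_distrib]
      have b2 := rounding (lx l x) A θ H y y0
      have b3 := (c2_mono (fun v w => add_nonneg (abs_nonneg _)
        (Q_nonneg (fun _ _ => abs_nonneg _) _ _)) (subset_univ A)).trans hx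
      have b4 : ∑ i ∈ A, ∑ j ∈ A, (if i = j then M * y i else 0) = M * ∑ i ∈ A, y i := by
        rw [Finset.mul_sum]
        apply Finset.sum_congr rfl
        intro i hi
        simp [hi]
      unfold c2 at b3
      rw [b4]
      change ∑ i ∈ A, ∑ j ∈ A, (if i = j then 0 else lx (fun s t => |l s t - lb (cell s) (cell t)| +
            ebar l cell lb (cell s) (cell t)) x i j) ≤ 1 at b3
      linarith
  rw [← a1] at a3
  rw [div_mul_eq_mul_div, le_div_iff₀ hA]
  refine le_of_mul_le_mul_left ?_ hA
  linarith

theorem int_z {cell : ℝ → Fin L} (hc : Measurable cell) (G : (Fin n → Fin L) → ℝ) :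
    Integrable (fun x : Fin n → ℝ => G fun v => cell (x v)) (piM n) := by
  refine Integrable.of_bound (C := ∑ z, |G z|) ?_ (ae_of_all _ fun x => ?_)
  · exact ((measurable_of_finite G).comp (measurable_pi_lambda _ fun v =>
      hc.comp (measurable_pi_apply v))).aestronglyMeasurable
  · exact Finset.single_le_sum (f := fun z => |G z|) (fun _ _ => abs_nonneg _) (mem_univ _)

noncomputable def beta (l : ℝ → ℝ → ℝ) (cell : ℝ → Fin L) (z : Fin n → Fin L)
    (ω : Ed n → Bool) : ℝ :=
  ∫ x, wt (pl (lx l x)) ω * (if (fun v => cell (x v)) = z then 1 else 0) ∂(piM n)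

theorem Ker.sum_beta (h : Ker l m M) {cell : ℝ → Fin L} (hc : Measurable cell)
    (G : (Fin n → Fin L) → (Ed n → Bool) → ℝ) :
    ∑ z, ∑ ω, beta l cell z ω * G z ω =
      ∫ x, Ex (pl (lx l x)) (G fun v => cell (x v)) ∂(piM n) := by
  unfold Ex beta
  rw [Finset.sum_comm, integral_finsetSum _ fun ω _ => h.int_wt ω (int_z hc fun z => G z ω)]
  apply Finset.sum_congr rfl
  intro ω _
  simp only [← integral_mul_const]
  rw [← integral_finsetSum _ fun z _ =>
    (h.int_wt ω (int_z hc fun z' => if z' = z then 1 else 0)).mul_const _]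
  congr 1
  funext x
  simp

theorem Ker.Phi_le_int (h : Ker l m M) {cell : ℝ → Fin L} (hc : Measurable cell) (hn : 0 < n)
    (c : (Ed n → Bool) → Fin n → Fin n) :
    Phi l ≤ ∫ x, Ex (pl (lx l x)) (fun ω => ∑ j, ((univ.filter fun v => c ω v = j).card : ℝ) / n *
      ph l (nuA cell (fun v => cell (x v)) (univ.filter fun v => c ω v = j))) ∂(piM n) := by
  have hn' : (0 : ℝ) < n := by exact_mod_cast hn
  refine (h.Phi_le (ι := (Fin n → Fin L) × (Ed n → Bool) × Fin n)
    (fun p => nuA cell p.1 (univ.filter fun v => c p.2.1 v = p.2.2))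
    (fun p => beta l cell p.1 p.2.1 * (((univ.filter fun v => c p.2.1 v = p.2.2).card : ℝ) / n))
    (fun p => nuA_compl _ _ _) (fun p => mul_nonneg (integral_nonneg fun x =>
      mul_nonneg (wt_nonneg (h.pl_mem x) _) (by split_ifs <;> norm_num)) (by positivity))
    ?_).trans (le_of_eq ?_)
  · intro S _
    have a1 := h.sum_beta hc fun (z : Fin n → Fin L) _ => (∑ i, (cm cell (z i)).real S) / n
    simp only [Ex_const] at a1
    rw [integral_div, integral_finsetSum _ fun i _ => int_z hc fun z => (cm cell (z i)).real S] at a1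
    have a2 : ∀ i : Fin n, ∫ x, (cm cell (cell (x i))).real S ∂(piM n) = lam.real S := by
      intro i
      rw [← sum_cm hc, ← int_cell hc lam fun a => (cm cell a).real S]
      exact integral_comp_eval (μ := fun _ : Fin n => lam) (f := fun s => (cm cell (cell s)).real S)
        ((measurable_of_finite fun a => (cm cell a).real S).comp hc).aestronglyMeasurable
    simp only [a2, sum_const, card_univ, Fintype.card_fin, nsmul_eq_mul] at a1
    rw [mul_div_cancel_left₀ _ hn'.ne'] at a1
    rw [← a1]
    simp only [Fintype.sum_prod_type]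
    apply Finset.sum_congr rfl
    intro z _
    apply Finset.sum_congr rfl
    intro ω _
    rw [← Finset.sum_fiberwise (s := univ) (g := c ω) (f := fun i => (cm cell (z i)).real S),
      Finset.sum_div, Finset.mul_sum]
    apply Finset.sum_congr rfl
    intro j _
    rw [← nuA_real]
    ring
  · rw [← h.sum_beta hc fun z ω => ∑ j, ((univ.filter fun v => c ω v = j).card : ℝ) / n *
      ph l (nuA cell z (univ.filter fun v => c ω v = j))]
    simp only [Fintype.sum_prod_type, Finset.mul_sum, mul_assoc]

theorem Ker.lower (h : Ker l m M) {ε : ℝ} (hε : 0 < ε) (hε1 : ε ≤ 1) :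
    Tendsto (fun n : ℕ => PE l n fun ω =>
      I1 ((chi ω : ℝ) < (1 - ε) * (Phi l * n / (2 * Real.log n)))) atTop (𝓝 0) := by
  refine tendsto_zero_of (fun n => h.PE_nonneg fun _ => I1_nonneg _) fun ε2' hε2' => ?_
  obtain ⟨ε2, hε2, hε21, hle⟩ : ∃ e : ℝ, 0 < e ∧ e ≤ 1 ∧ e ≤ ε2' :=
    ⟨min 1 ε2', lt_min one_pos hε2', min_le_left _ _, min_le_right _ _⟩
  have hM := h.Mpos
  have hΦ : 0 < Phi l := h.pos.trans_le h.m_le_Phi
  set η := ε * ε2 / 10 with hη
  have hη0 : 0 < η := by positivity
  have hη1 : η ≤ 1 := by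
    have := mul_le_one₀ hε1 hε2.le hε21
    linarith
  set τ := Phi l * ε * ε2 / (6 * M) with hτ
  have hτ0 : 0 < τ := by positivity
  have t1 : Tendsto (fun n : ℕ => Real.exp (Real.exp (-(η * Real.log n))) - 1) atTop (𝓝 0) := by
    have a1 := Real.tendsto_exp_neg_atTop_nhds_zero.comp (tendsto_logn.const_mul_atTop hη0)
    have a2 := ((Real.continuous_exp.tendsto 0).comp a1).sub_const 1
    simpa using a2
  filter_upwards [ev_log_ge 1, ev_log_ge ((M + 1) / (2 * η)), t1.eventually (ge_mem_nhds hτ0),
    (h.upper hη0).eventually (ge_mem_nhds hτ0)] with n g1 g2 g3 g4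
  refine le_trans ?_ hle
  have hn : (0 : ℝ) < n := by rw [← exp_logn g1]; exact Real.exp_pos _
  have hexp := exp_logn g1
  set b := Real.log n with hb
  have hbp : 0 < b := by linarith
  obtain ⟨L, cell, hc, lb, _, hQ⟩ := block_approx h.bm h.nonneg h.hi
    (δ := τ / (2 * (n : ℝ) ^ 2)) (by positivity)
  have b1 := h.bm.absub (BM.cell hc lb)
  have b2 := BM.cell hc (ebar l cell lb)
  have b3 := b1.add b2
  have b4 := int_c2_le (n := n) b3 (δ := τ / (n : ℝ) ^ 2) (by positivity) (by
    rw [Q_add b1 b2, Q_ebar h.bm hc]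
    have : τ / (n : ℝ) ^ 2 = τ / (2 * (n : ℝ) ^ 2) + τ / (2 * (n : ℝ) ^ 2) := by ring
    linarith)
  rw [div_mul_cancel₀ _ (by positivity)] at b4
  choose c c1 c2' using exists_classes (n := n)
  have key := h.Phi_le_int hc (by exact_mod_cast hn) c
  set Z := Phi l * n / (2 * b) with hZ
  have hZ0 : 0 < Z := by positivity
  set K := 2 * ((1 + η) * b) + M + 1 with hK
  have hK0 : 0 < K := by positivity
  set hh : ℝ → ℝ → ℝ := fun s t => |l s t - lb (cell s) (cell t)| +
    ebar l cell lb (cell s) (cell t) with hhh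
  have key2 : ∫ x, Ex (pl (lx l x)) (fun ω => ∑ j,
      ((univ.filter fun v => c ω v = j).card : ℝ) / n *
      ph l (nuA cell (fun v => cell (x v)) (univ.filter fun v => c ω v = j))) ∂(piM n) ≤
      ∫ x, (K / n * ((1 + η) * Z) + M * τ + M * c2 (lx hh x) univ +
        M * Ex (pl (lx l x)) (fun ω => I1 ((1 + η) * Z < chi ω)) -
        K / n * ((ε + η) * Z) * Ex (pl (lx l x)) (fun ω => I1 ((chi ω : ℝ) < (1 - ε) * Z)))
        ∂(piM n) := by
    refine integral_mono (h.int_Ex fun ω => int_z hc fun z => ∑ j,
      ((univ.filter fun v => c ω v = j).card : ℝ) / n *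
      ph l (nuA cell z (univ.filter fun v => c ω v = j)))
      ((((integrable_const _).add (b3.int_c2.const_mul M)).add ((h.int_PE _).const_mul M)).sub
        ((h.int_PE _).const_mul _)) fun x => ?_
    have p0 : 0 ≤ c2 (lx hh x) univ := c2_nonneg (fun v w => add_nonneg (abs_nonneg _)
        (Q_nonneg (fun _ _ => abs_nonneg _) _ _)) _
    have p1 := first_moment (l := lx l x) (fun _ _ => h.nonneg _ _) ((1 + η) * b)
    have p2 : (n : ℝ) * Real.exp (-((1 + η) * b)) = Real.exp (-(η * b)) := by
      rw [← hexp, ← Real.exp_add]; congr 1; ring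
    rw [p2] at p1
    refine le_trans (Ex_mono (h.pl_mem x) (h' := fun ω => (K / n * ((1 + η) * Z) +
        M * c2 (lx hh x) univ) + M * I1 (∃ T : Finset (Fin n), Indep ω T ∧
          (1 + η) * b * T.card < cost (lx l x) T) + M * I1 ((1 + η) * Z < chi ω) -
        K / n * ((ε + η) * Z) * I1 ((chi ω : ℝ) < (1 - ε) * Z)) fun ω => ?_) ?_
    swap
    · rw [Ex_sub, Ex_add, Ex_add, Ex_const, Ex_mul, Ex_mul, Ex_mul]
      have := mul_le_mul_of_nonneg_left (p1.trans g3) hM.le
      dsimp only
      linarith
    have q1 : ∑ j, ((univ.filter fun v => c ω v = j).card : ℝ) / n *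
        ph l (nuA cell (fun v => cell (x v)) (univ.filter fun v => c ω v = j)) ≤ M := by
      refine (Finset.sum_le_sum fun j _ => mul_le_mul_of_nonneg_left (h.ph_le_M _)
        (by positivity)).trans (le_of_eq ?_)
      rw [← Finset.sum_mul, ← Finset.sum_div]
      have := card_eq_sum_cnt (c ω) univ
      rw [card_univ, Fintype.card_fin] at this
      have a2 : (∑ j, ((univ.filter fun v => c ω v = j).card : ℝ)) = n := by
        exact_mod_cast this.symm
      rw [a2, div_self hn.ne', one_mul]
    have q2 : K / n * ((ε + η) * Z) * I1 ((chi ω : ℝ) < (1 - ε) * Z) ≤ K / n * ((1 + η) * Z) := by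
      refine (mul_le_of_le_one_right (by positivity) (I1_le_one _)).trans ?_
      gcongr
    have q3 := mul_nonneg hM.le (I1_nonneg (∃ T : Finset (Fin n), Indep ω T ∧
          (1 + η) * b * T.card < cost (lx l x) T))
    have q4 := mul_nonneg hM.le (I1_nonneg ((1 + η) * Z < chi ω))
    have q5 := mul_nonneg hM.le p0
    by_cases r1 : ∃ T : Finset (Fin n), Indep ω T ∧ (1 + η) * b * T.card < cost (lx l x) T
    · rw [I1_pos r1]; linarith
    by_cases r2 : (1 + η) * Z < chi ω
    · rw [I1_pos r2]; linarith
    by_cases r3 : c2 (lx hh x) univ ≤ 1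
    swap
    · have := mul_le_mul_of_nonneg_left (not_le.1 r3).le hM.le
      linarith
    have q6 : ∑ j, ((univ.filter fun v => c ω v = j).card : ℝ) / n *
        ph l (nuA cell (fun v => cell (x v)) (univ.filter fun v => c ω v = j)) ≤
        K / n * chi ω := by
      have a1 : ∀ j : Fin n, ((univ.filter fun v => c ω v = j).card : ℝ) / n *
          ph l (nuA cell (fun v => cell (x v)) (univ.filter fun v => c ω v = j)) ≤
          if (j : ℕ) < chi ω then K / n else 0 := by
        intro j
        split_ifs with hj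
        · rw [div_mul_eq_mul_div]
          refine div_le_div_of_nonneg_right (h.class_bound cell lb x _ (by positivity) ?_ r3) hn.le
          intro T hT
          rw [← two_cost (l := lx l x) fun _ _ => h.symm _ _]
          have := not_lt.1 fun hc => r1 ⟨T, indep_mono (c2' ω j) hT, hc⟩
          linarith
        · have : (univ.filter fun v => c ω v = j) = ∅ :=
            Finset.filter_false_of_mem fun v _ hv => hj (by rw [← hv]; exact c1 ω v)
          rw [this]
          simp
      refine (Finset.sum_le_sum fun j _ => a1 j).trans ?_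
      rw [← Finset.sum_filter, sum_const, nsmul_eq_mul, mul_comm]
      apply mul_le_mul_of_nonneg_left _ (by positivity)
      have : (univ.filter fun j : Fin n => (j : ℕ) < chi ω).card ≤ chi ω := by
        rw [Fin.card_filter_val_lt]; exact min_le_right _ _
      exact_mod_cast this
    have hKn : 0 ≤ K / n := by positivity
    by_cases r4 : (chi ω : ℝ) < (1 - ε) * Z
    · rw [I1_pos r4]
      have := mul_le_mul_of_nonneg_left r4.le hKn
      linarith
    · rw [I1_neg r4]
      have := mul_le_mul_of_nonneg_left (not_lt.1 r2) hKn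
      linarith
  rw [integral_sub (by exact (((integrable_const _).add (b3.int_c2.const_mul M)).add
      ((h.int_PE _).const_mul M))) ((h.int_PE _).const_mul _),
    integral_add (by exact (integrable_const _).add (b3.int_c2.const_mul M))
      ((h.int_PE _).const_mul M), integral_add (integrable_const _) (b3.int_c2.const_mul M)] at key2
  simp only [integral_const, probReal_univ, smul_eq_mul, one_mul, integral_const_mul] at key2
  set P := PE l n fun ω => I1 ((chi ω : ℝ) < (1 - ε) * Z) with hP
  have P0 : 0 ≤ P := h.PE_nonneg fun _ => I1_nonneg _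
  have e1 : Phi l ≤ K / n * ((1 + η) * Z) + 3 * (M * τ) - K / n * ((ε + η) * Z) * P := by
    have a1 := mul_le_mul_of_nonneg_left b4 hM.le
    have a2 := mul_le_mul_of_nonneg_left g4 hM.le
    unfold PE at a2 hP
    rw [hP]
    linarith
  have e2 : K / n * Z = Phi l * (K / (2 * b)) := by rw [hZ]; field_simp
  have e3 : 1 ≤ K / (2 * b) := by
    rw [one_le_div (by positivity), hK]
    nlinarith [mul_pos hη0 hbp]
  have e4 : K / (2 * b) ≤ 1 + 2 * η := by
    rw [div_le_iff₀ (by positivity)] at g2 ⊢
    rw [hK]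
    linarith
  have e5 : 3 * (M * τ) = Phi l * (ε * ε2 / 2) := by rw [hτ]; field_simp; ring
  set κ := K / (2 * b) with hκ
  have e6 : Phi l * 1 ≤ Phi l * (κ * (1 + η) + ε * ε2 / 2 - κ * (ε + η) * P) := by
    have a1 : K / n * ((1 + η) * Z) = Phi l * κ * (1 + η) := by rw [← e2]; ring
    have a2 : K / n * ((ε + η) * Z) = Phi l * κ * (ε + η) := by rw [← e2]; ring
    rw [a1, a2, e5] at e1
    linarith
  have e7 := le_of_mul_le_mul_left e6 hΦ
  have e8 : ε * P ≤ κ * (ε + η) * P := by
    apply mul_le_mul_of_nonneg_right _ P0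
    nlinarith
  have e9 : κ * (1 + η) ≤ 1 + 5 * η := by nlinarith
  have e10 : ε * P ≤ ε * ε2 := by linarith
  exact le_of_mul_le_mul_left e10 hε

end Pool.Agent.H550Z.Gr
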