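import Mathlib

set_option autoImplicit false

open MeasureTheory Finset

namespace Pool.Agent.H550Z.Gr

noncomputable def lam : Measure ℝ := volume.restrict (Set.Icc (0 : ℝ) 1)

instance : IsProbabilityMeasure lam := ⟨by simp [lam]⟩

theorem lam_compl : lam (Set.Icc (0 : ℝ) 1)ᶜ = 0 := by
  unfold lam
  rw [Measure.restrict_apply measurableSet_Icc.compl]
  simp

/-- bounded measurable kernels -/
structure BM (f : ℝ → ℝ → ℝ) : Prop where
  meas : Measurable (Function.uncurry f)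
  bdd : ∃ C, ∀ x y, |f x y| ≤ C

noncomputable def Q (f : ℝ → ℝ → ℝ) (μ ν : Measure ℝ) : ℝ := ∫ x, (∫ y, f x y ∂ν) ∂μ

theorem BM.intp {f : ℝ → ℝ → ℝ} (hf : BM f) (μ : Measure (ℝ × ℝ)) [IsFiniteMeasure μ] :
    Integrable (Function.uncurry f) μ := by
  obtain ⟨C, hC⟩ := hf.bdd
  exact Integrable.of_bound hf.meas.aestronglyMeasurable C (ae_of_all _ fun p => hC p.1 p.2)

theorem BM.int1 {f : ℝ → ℝ → ℝ} (hf : BM f) (x : ℝ) (ν : Measure ℝ) [IsFiniteMeasure ν] :
    Integrable (f x) ν := by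
  obtain ⟨C, hC⟩ := hf.bdd
  exact Integrable.of_bound (hf.meas.of_uncurry_left).aestronglyMeasurable C
    (ae_of_all _ fun y => hC x y)

theorem BM.int2 {f : ℝ → ℝ → ℝ} (hf : BM f) (μ ν : Measure ℝ) [IsFiniteMeasure μ]
    [IsFiniteMeasure ν] : Integrable (fun x => ∫ y, f x y ∂ν) μ :=
  (hf.intp (μ.prod ν)).integral_prod_left

theorem Q_prod {f : ℝ → ℝ → ℝ} (hf : BM f) (μ ν : Measure ℝ) [IsFiniteMeasure μ]
    [IsFiniteMeasure ν] : Q f μ ν = ∫ p, f p.1 p.2 ∂(μ.prod ν) :=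
  (integral_prod _ (hf.intp (μ.prod ν))).symm

theorem BM.const (c : ℝ) : BM (fun _ _ => c) := ⟨measurable_const, |c|, fun _ _ => le_rfl⟩

theorem BM.add {f g : ℝ → ℝ → ℝ} (hf : BM f) (hg : BM g) : BM (fun x y => f x y + g x y) := by
  obtain ⟨C, hC⟩ := hf.bdd
  obtain ⟨D, hD⟩ := hg.bdd
  exact ⟨hf.meas.add hg.meas, C + D, fun x y => (abs_add_le _ _).trans (add_le_add (hC x y) (hD x y))⟩

theorem BM.absub {f g : ℝ → ℝ → ℝ} (hf : BM f) (hg : BM g) : BM (fun x y => |f x y - g x y|) := by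
  obtain ⟨C, hC⟩ := hf.bdd
  obtain ⟨D, hD⟩ := hg.bdd
  refine ⟨(hf.meas.sub hg.meas).abs, C + D, fun x y => ?_⟩
  rw [abs_abs]
  exact (abs_sub _ _).trans (add_le_add (hC x y) (hD x y))

theorem BM.cell {L : ℕ} {cell : ℝ → Fin L} (hc : Measurable cell) (lb : Fin L → Fin L → ℝ) :
    BM (fun x y => lb (cell x) (cell y)) := by
  refine ⟨?_, ∑ p : Fin L × Fin L, |lb p.1 p.2|, fun x y => ?_⟩
  · exact (measurable_of_finite (fun p : Fin L × Fin L => lb p.1 p.2)).comp
      ((hc.comp measurable_fst).prodMk (hc.comp measurable_snd))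
  · exact Finset.single_le_sum (f := fun p : Fin L × Fin L => |lb p.1 p.2|)
      (fun _ _ => abs_nonneg _) (mem_univ (cell x, cell y))

theorem Q_mono {f g : ℝ → ℝ → ℝ} (hf : BM f) (hg : BM g) (h : ∀ x y, f x y ≤ g x y)
    (μ ν : Measure ℝ) [IsFiniteMeasure μ] [IsFiniteMeasure ν] : Q f μ ν ≤ Q g μ ν :=
  integral_mono (hf.int2 μ ν) (hg.int2 μ ν) fun x =>
    integral_mono (hf.int1 x ν) (hg.int1 x ν) fun y => h x y

theorem Q_add {f g : ℝ → ℝ → ℝ} (hf : BM f) (hg : BM g)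
    (μ ν : Measure ℝ) [IsFiniteMeasure μ] [IsFiniteMeasure ν] :
    Q (fun x y => f x y + g x y) μ ν = Q f μ ν + Q g μ ν := by
  unfold Q
  rw [← integral_add (hf.int2 μ ν) (hg.int2 μ ν)]
  congr 1
  funext x
  exact integral_add (hf.int1 x ν) (hg.int1 x ν)

theorem Q_const (c : ℝ) (μ ν : Measure ℝ) :
    Q (fun _ _ => c) μ ν = μ.real Set.univ * ν.real Set.univ * c := by
  unfold Q
  simp only [integral_const, smul_eq_mul]
  ring

theorem Q_nonneg {f : ℝ → ℝ → ℝ} (h : ∀ x y, 0 ≤ f x y) (μ ν : Measure ℝ) : 0 ≤ Q f μ ν :=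
  integral_nonneg fun x => integral_nonneg fun y => h x y

theorem Q_mono_meas {f : ℝ → ℝ → ℝ} (hf : BM f) (h : ∀ x y, 0 ≤ f x y)
    {μ ν μ' ν' : Measure ℝ} [IsFiniteMeasure μ'] [IsFiniteMeasure ν'] (h1 : μ ≤ μ') (h2 : ν ≤ ν') :
    Q f μ ν ≤ Q f μ' ν' := by
  have := isFiniteMeasure_of_le μ' h1
  have := isFiniteMeasure_of_le ν' h2
  calc Q f μ ν ≤ Q f μ ν' := integral_mono (hf.int2 μ ν) (hf.int2 μ ν') fun x =>
        integral_mono_measure h2 (ae_of_all _ fun y => h x y) (hf.int1 x ν')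
    _ ≤ Q f μ' ν' := integral_mono_measure h1
        (ae_of_all _ fun x => integral_nonneg fun y => h x y) (hf.int2 μ' ν')

theorem Q_sum {f : ℝ → ℝ → ℝ} (hf : BM f) {ι κ : Type} (s : Finset ι) (t : Finset κ)
    (μ : ι → Measure ℝ) (ν : κ → Measure ℝ) [∀ i, IsFiniteMeasure (μ i)]
    [∀ j, IsFiniteMeasure (ν j)] :
    Q f (∑ i ∈ s, μ i) (∑ j ∈ t, ν j) = ∑ i ∈ s, ∑ j ∈ t, Q f (μ i) (ν j) := by
  unfold Q
  rw [integral_finsetSum_measure fun i _ => hf.int2 _ _]
  apply Finset.sum_congr rfl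
  intro i _
  rw [← integral_finsetSum _ fun j _ => hf.int2 _ _]
  congr 1
  funext x
  exact integral_finsetSum_measure fun j _ => hf.int1 _ _

theorem Q_smul (f : ℝ → ℝ → ℝ) (c d : ENNReal) (μ ν : Measure ℝ) :
    Q f (c • μ) (d • ν) = c.toReal * d.toReal * Q f μ ν := by
  unfold Q
  simp only [integral_smul_measure, smul_eq_mul, integral_const_mul]
  ring

theorem int_cell {L : ℕ} {cell : ℝ → Fin L} (hc : Measurable cell) (μ : Measure ℝ)
    [IsFiniteMeasure μ] (G : Fin L → ℝ) :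
    ∫ x, G (cell x) ∂μ = ∑ a, μ.real (cell ⁻¹' {a}) * G a := by
  rw [← integral_map hc.aemeasurable (measurable_of_finite G).aestronglyMeasurable,
    integral_fintype Integrable.of_finite]
  apply Finset.sum_congr rfl
  intro a _
  rw [map_measureReal_apply hc (measurableSet_singleton a), smul_eq_mul]

theorem Q_cell {L : ℕ} {cell : ℝ → Fin L} (hc : Measurable cell) (lb : Fin L → Fin L → ℝ)
    (μ ν : Measure ℝ) [IsFiniteMeasure μ] [IsFiniteMeasure ν] :
    Q (fun x y => lb (cell x) (cell y)) μ ν =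
      ∑ a, ∑ b, μ.real (cell ⁻¹' {a}) * ν.real (cell ⁻¹' {b}) * lb a b := by
  unfold Q
  simp_rw [fun x => int_cell hc ν (lb (cell x))]
  rw [int_cell hc μ (fun a => ∑ b, ν.real (cell ⁻¹' {b}) * lb a b)]
  apply Finset.sum_congr rfl
  intro a _
  rw [Finset.mul_sum]
  apply Finset.sum_congr rfl
  intro b _
  ring

theorem sum_cell {L : ℕ} {cell : ℝ → Fin L} (hc : Measurable cell) (μ : Measure ℝ)
    [IsFiniteMeasure μ] : ∑ a, μ.real (cell ⁻¹' {a}) = μ.real Set.univ := by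
  have := int_cell hc μ (fun _ => 1)
  simpa using this.symm

theorem exists_sub {μ : Measure ℝ} (hμ : μ ≤ lam) {C : Set ℝ} (hC : MeasurableSet C) {y : ℝ}
    (h0 : 0 ≤ y) (h1 : y ≤ μ.real C) : ∃ S, MeasurableSet S ∧ S ⊆ C ∧ μ.real S = y := by
  have := isFiniteMeasure_of_le lam hμ
  set g : ℝ → ℝ := fun t => μ.real (C ∩ Set.Iic t) with hg
  have hle : ∀ s t, s ≤ t → g s ≤ g t ∧ g t ≤ g s + (t - s) := by
    intro s t hst
    constructor
    · exact measureReal_mono (Set.inter_subset_inter_right _ (Set.Iic_subset_Iic.2 hst))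
    · have a1 : C ∩ Set.Iic t ⊆ (C ∩ Set.Iic s) ∪ Set.Ioc s t := by
        rintro x ⟨h1, h2⟩
        rcases le_or_gt x s with h | h
        · exact Or.inl ⟨h1, h⟩
        · exact Or.inr ⟨h, h2⟩
      have a2 : μ.real (Set.Ioc s t) ≤ t - s := by
        have b1 : μ (Set.Ioc s t) ≤ ENNReal.ofReal (t - s) := by
          rw [← Real.volume_Ioc]
          exact (hμ _).trans (Measure.restrict_le_self _)
        exact ENNReal.toReal_le_of_le_ofReal (by linarith) b1
      exact (measureReal_mono a1).trans ((measureReal_union_le _ _).trans (add_le_add le_rfl a2))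
  have hcont : Continuous g := by
    apply LipschitzWith.continuous (K := 1)
    apply LipschitzWith.of_dist_le_mul
    intro s t
    rw [Real.dist_eq, Real.dist_eq, NNReal.coe_one, one_mul]
    rcases le_total s t with h | h
    · have := hle s t h
      rw [abs_of_nonpos (by linarith), abs_of_nonpos (by linarith)]; linarith
    · have := hle t s h
      rw [abs_of_nonneg (by linarith), abs_of_nonneg (by linarith)]; linarith
  have hz : μ (Set.Icc (0 : ℝ) 1)ᶜ = 0 := le_antisymm ((hμ _).trans lam_compl.le) zero_le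
  have g0 : g (-1) = 0 := by
    have : μ (C ∩ Set.Iic (-1)) = 0 := by
      refine measure_mono_null ?_ hz
      rintro x ⟨_, h2⟩ h3
      have := h3.1
      have h4 : x ≤ -1 := h2
      linarith
    simp [hg, Measure.real, this]
  have g1 : μ.real C ≤ g 1 := by
    have a1 : C ⊆ (C ∩ Set.Iic 1) ∪ (Set.Icc (0 : ℝ) 1)ᶜ := by
      intro x hx
      by_cases h : x ∈ Set.Icc (0 : ℝ) 1
      · exact Or.inl ⟨hx, h.2⟩
      · exact Or.inr h
    refine (measureReal_mono a1).trans ((measureReal_union_le _ _).trans ?_)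
    simp [hg, Measure.real, hz]
  obtain ⟨t, _, ht⟩ := intermediate_value_Icc (by norm_num : (-1 : ℝ) ≤ 1) hcont.continuousOn
    (show y ∈ Set.Icc (g (-1)) (g 1) from ⟨by rw [g0]; exact h0, h1.trans g1⟩)
  exact ⟨C ∩ Set.Iic t, hC.inter measurableSet_Iic, Set.inter_subset_left, ht⟩

theorem exists_sub_cells {μ : Measure ℝ} (hμ : μ ≤ lam) {L : ℕ} {cell : ℝ → Fin L}
    (hc : Measurable cell) (y : Fin L → ℝ) (hy : ∀ a, 0 ≤ y a ∧ y a ≤ μ.real (cell ⁻¹' {a})) :
    ∃ S, MeasurableSet S ∧ ∀ a, (μ.restrict S).real (cell ⁻¹' {a}) = y a := by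
  choose S h1 h2 h3 using fun a => exists_sub hμ (hc (measurableSet_singleton a)) (hy a).1 (hy a).2
  refine ⟨⋃ a, S a, MeasurableSet.iUnion h1, fun a => ?_⟩
  rw [measureReal_restrict_apply (hc (measurableSet_singleton a)), ← h3 a]
  congr 1
  ext x
  simp only [Set.mem_inter_iff, Set.mem_iUnion]
  constructor
  · rintro ⟨h, b, hb⟩
    have h4 : cell x = b := h2 b hb
    have h5 : cell x = a := h
    rw [← h5, h4]; exact hb
  · exact fun h => ⟨h2 a h, a, h⟩

theorem block_approx {l : ℝ → ℝ → ℝ} (hl : BM l) {M : ℝ} (h0 : ∀ x y, 0 ≤ l x y)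
    (hM : ∀ x y, l x y ≤ M) {δ : ℝ} (hδ : 0 < δ) :
    ∃ L : ℕ, ∃ cell : ℝ → Fin L, Measurable cell ∧ ∃ lb : Fin L → Fin L → ℝ,
      (∀ a b, 0 ≤ lb a b ∧ lb a b ≤ M) ∧
      Q (fun x y => |l x y - lb (cell x) (cell y)|) lam lam ≤ δ := by
  obtain ⟨g, hg1, hg2⟩ := (hl.intp (lam.prod lam)).exists_boundedContinuous_integral_sub_le
    (half_pos hδ)
  have hK : IsCompact (Set.Icc (0 : ℝ) 1 ×ˢ Set.Icc (0 : ℝ) 1) := isCompact_Icc.prod isCompact_Icc
  obtain ⟨d, hd, hu⟩ := Metric.uniformContinuousOn_iff.1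
    (hK.uniformContinuousOn_of_continuous g.continuous.continuousOn) _ (half_pos hδ)
  obtain ⟨N, hN⟩ := exists_nat_one_div_lt hd
  have hN0 : (0 : ℝ) < (N : ℝ) + 1 := by positivity
  let cell : ℝ → Fin (N + 1) := fun x => ⟨min N ⌊((N : ℝ) + 1) * x⌋₊, by omega⟩
  have hc : Measurable cell :=
    (measurable_of_countable (fun k : ℕ => (⟨min N k, by omega⟩ : Fin (N + 1)))).comp
      (Nat.measurable_floor.comp (measurable_const_mul _))
  let rep : Fin (N + 1) → ℝ := fun a => (a : ℕ) / ((N : ℝ) + 1)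
  have r1 : ∀ a, rep a ∈ Set.Icc (0 : ℝ) 1 := by
    intro a
    refine ⟨by positivity, ?_⟩
    rw [div_le_one hN0]
    exact_mod_cast a.2.le
  have r2 : ∀ x ∈ Set.Icc (0 : ℝ) 1, dist x (rep (cell x)) < d := by
    intro x hx
    refine lt_of_le_of_lt ?_ hN
    have a0 : 0 ≤ ((N : ℝ) + 1) * x := mul_nonneg hN0.le hx.1
    have a1 := Nat.floor_le a0
    have a2 := Nat.lt_floor_add_one (((N : ℝ) + 1) * x)
    have a3 : ((N : ℝ) + 1) * x ≤ N + 1 := mul_le_of_le_one_right hN0.le hx.2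
    have a4 : ((min N ⌊((N : ℝ) + 1) * x⌋₊ : ℕ) : ℝ) ≤ ((N : ℝ) + 1) * x ∧
        ((N : ℝ) + 1) * x ≤ ((min N ⌊((N : ℝ) + 1) * x⌋₊ : ℕ) : ℝ) + 1 := by
      rcases le_total N ⌊((N : ℝ) + 1) * x⌋₊ with h | h
      · rw [min_eq_left h]
        have : (N : ℝ) ≤ ⌊((N : ℝ) + 1) * x⌋₊ := by exact_mod_cast h
        constructor <;> linarith
      · rw [min_eq_right h]
        constructor <;> linarith
    have a5 : x - rep (cell x) =
        (((N : ℝ) + 1) * x - ((min N ⌊((N : ℝ) + 1) * x⌋₊ : ℕ) : ℝ)) / ((N : ℝ) + 1) := by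
      simp only [rep, cell]
      field_simp
    rw [Real.dist_eq, a5, abs_div, abs_of_pos hN0, abs_of_nonneg (by linarith [a4.1])]
    apply div_le_div_of_nonneg_right _ hN0.le
    linarith [a4.2]
  have hM0 : 0 ≤ M := (h0 0 0).trans (hM 0 0)
  refine ⟨N + 1, cell, hc, fun a b => max 0 (min M (g (rep a, rep b))),
    fun a b => ⟨le_max_left _ _, max_le hM0 (min_le_left _ _)⟩, ?_⟩
  have hb := hl.absub (BM.cell hc fun a b => max 0 (min M (g (rep a, rep b))))
  rw [Q_prod hb]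
  have hi : Integrable (fun p => ‖Function.uncurry l p - g p‖) (lam.prod lam) :=
    ((hl.intp _).sub hg2).norm
  have h2 : ∫ p, |l p.1 p.2 - max 0 (min M (g (rep (cell p.1), rep (cell p.2))))| ∂(lam.prod lam) ≤
      ∫ p, (‖Function.uncurry l p - g p‖ + δ / 2) ∂(lam.prod lam) := by
    refine integral_mono_ae (hb.intp _) (hi.add (integrable_const _)) ?_
    have : ∀ᵐ p ∂(lam.prod lam), p ∈ Set.Icc (0 : ℝ) 1 ×ˢ Set.Icc (0 : ℝ) 1 := by
      unfold lam
      rw [Measure.prod_restrict]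
      exact ae_restrict_mem (measurableSet_Icc.prod measurableSet_Icc)
    filter_upwards [this] with p hp
    have b1 := hu p hp (rep (cell p.1), rep (cell p.2)) ⟨r1 _, r1 _⟩ (by
      rw [Prod.dist_eq]; exact max_lt (r2 _ hp.1) (r2 _ hp.2))
    rw [Real.dist_eq, abs_lt] at b1
    have b2 := h0 p.1 p.2
    have b3 := hM p.1 p.2
    have b4 := le_abs_self (l p.1 p.2 - g p)
    have b5 := neg_abs_le (l p.1 p.2 - g p)
    change _ ≤ |l p.1 p.2 - g p| + δ / 2
    rw [abs_le]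
    constructor
    · rcases le_total 0 (min M (g (rep (cell p.1), rep (cell p.2)))) with h | h
      · rw [max_eq_right h]
        linarith [min_le_right M (g (rep (cell p.1), rep (cell p.2)))]
      · rw [max_eq_left h]
        linarith [abs_nonneg (l p.1 p.2 - g p)]
    · have b6 := le_max_right 0 (min M (g (rep (cell p.1), rep (cell p.2))))
      rcases le_total M (g (rep (cell p.1), rep (cell p.2))) with h | h
      · rw [min_eq_left h] at b6 ⊢
        linarith [abs_nonneg (l p.1 p.2 - g p)]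
      · rw [min_eq_right h] at b6 ⊢
        linarith
  rw [integral_add hi (integrable_const _)] at h2
  simp only [integral_const, probReal_univ, smul_eq_mul, one_mul] at h2
  linarith

end Pool.Agent.H550Z.Gr
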