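import Pool.Agent.H550Z.Gr.Meas

set_option autoImplicit false

open MeasureTheory Finset

namespace Pool.Agent.H550Z.Gr

/-- symmetric measurable kernels with values in `[m, M]`, `0 < m` -/
structure Ker (l : ℝ → ℝ → ℝ) (m M : ℝ) : Prop where
  meas : Measurable (Function.uncurry l)
  symm : ∀ x y, l x y = l y x
  pos : 0 < m
  lo : ∀ x y, m ≤ l x y
  hi : ∀ x y, l x y ≤ M

def phS (l : ℝ → ℝ → ℝ) (μ : Measure ℝ) : Set ℝ :=
  {r : ℝ | ∃ S : Set ℝ, MeasurableSet S ∧ 0 < μ S ∧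
    r = (μ S).toReal⁻¹ * Q l (μ.restrict S) (μ.restrict S)}

noncomputable def ph (l : ℝ → ℝ → ℝ) (μ : Measure ℝ) : ℝ := sSup (phS l μ)

def PhiS (l : ℝ → ℝ → ℝ) : Set ℝ :=
  {t : ℝ | ∃ k : ℕ, ∃ ν : Fin k → Measure ℝ, ∃ α : Fin k → ℝ,
    (∀ i, IsProbabilityMeasure (ν i)) ∧ (∀ i, ν i (Set.Icc (0:ℝ) 1)ᶜ = 0) ∧
    (∀ i, 0 ≤ α i) ∧ ∑ i, α i = 1 ∧
    ∑ i, ENNReal.ofReal (α i) • ν i = lam ∧ t = ∑ i, α i * ph l (ν i)}

noncomputable def Phi (l : ℝ → ℝ → ℝ) : ℝ := sInf (PhiS l)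

variable {l : ℝ → ℝ → ℝ} {m M : ℝ}

theorem Ker.nonneg (h : Ker l m M) (x y : ℝ) : 0 ≤ l x y := h.pos.le.trans (h.lo x y)

theorem Ker.Mpos (h : Ker l m M) : 0 < M := h.pos.trans_le ((h.lo 0 0).trans (h.hi 0 0))

theorem Ker.bm (h : Ker l m M) : BM l :=
  ⟨h.meas, M, fun x y => by rw [abs_of_nonneg (h.nonneg x y)]; exact h.hi x y⟩

theorem Ker.Q_le (h : Ker l m M) (μ ν : Measure ℝ) [IsFiniteMeasure μ] [IsFiniteMeasure ν]
    (S : Set ℝ) : Q l (μ.restrict S) (ν.restrict S) ≤ μ.real S * ν.real S * M := by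
  refine (Q_mono h.bm (BM.const M) h.hi _ _).trans (le_of_eq ?_)
  rw [Q_const, measureReal_restrict_apply_univ, measureReal_restrict_apply_univ]

theorem ph_le (μ : Measure ℝ) [IsFiniteMeasure μ] {K : ℝ} (hK : 0 ≤ K)
    (H : ∀ S, MeasurableSet S → Q l (μ.restrict S) (μ.restrict S) ≤ K * μ.real S) :
    ph l μ ≤ K := by
  apply Real.sSup_le _ hK
  rintro r ⟨S, h1, h2, rfl⟩
  have h3 : 0 < (μ S).toReal := ENNReal.toReal_pos h2.ne' (measure_ne_top _ _)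
  rw [inv_mul_le_iff₀ h3, mul_comm]
  exact H S h1

theorem Ker.Q_le' (h : Ker l m M) (μ : Measure ℝ) [IsProbabilityMeasure μ] (S : Set ℝ) :
    Q l (μ.restrict S) (μ.restrict S) ≤ M * μ.real S := by
  refine (h.Q_le μ μ S).trans ?_
  have h1 : μ.real S ≤ 1 := measureReal_le_one
  have h2 : 0 ≤ μ.real S := measureReal_nonneg
  nlinarith [mul_nonneg h2 h.Mpos.le]

theorem Ker.ph_le_M (h : Ker l m M) (μ : Measure ℝ) [IsProbabilityMeasure μ] : ph l μ ≤ M :=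
  ph_le μ h.Mpos.le fun S _ => h.Q_le' μ S

theorem Ker.ph_bdd (h : Ker l m M) (μ : Measure ℝ) [IsProbabilityMeasure μ] :
    BddAbove (phS l μ) := by
  refine ⟨M, ?_⟩
  rintro r ⟨S, h1, h2, rfl⟩
  have h3 : 0 < (μ S).toReal := ENNReal.toReal_pos h2.ne' (measure_ne_top _ _)
  rw [inv_mul_le_iff₀ h3, mul_comm]
  exact h.Q_le' μ S

theorem Ker.Q_le_ph (h : Ker l m M) (μ : Measure ℝ) [IsProbabilityMeasure μ] {S : Set ℝ}
    (hS : MeasurableSet S) : Q l (μ.restrict S) (μ.restrict S) ≤ ph l μ * μ.real S := by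
  rcases eq_or_ne (μ S) 0 with h0 | h0
  · have := h.Q_le' μ S
    simpa [Measure.real, h0] using this
  · have h3 : 0 < (μ S).toReal := ENNReal.toReal_pos h0 (measure_ne_top _ _)
    have := le_csSup (h.ph_bdd μ) ⟨S, hS, pos_iff_ne_zero.2 h0, rfl⟩
    rw [inv_mul_le_iff₀ h3, mul_comm] at this
    exact this

theorem Ker.m_le_ph (h : Ker l m M) (μ : Measure ℝ) [IsProbabilityMeasure μ] : m ≤ ph l μ := by
  have h1 := h.Q_le_ph μ MeasurableSet.univ
  have h2 := Q_mono (BM.const m) h.bm h.lo μ μ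
  rw [Q_const] at h2
  simp only [Measure.restrict_univ, probReal_univ, mul_one, one_mul] at h1 h2
  linarith

theorem PhiS_nonempty (l : ℝ → ℝ → ℝ) : (PhiS l).Nonempty :=
  ⟨_, 1, fun _ => lam, fun _ => 1, fun _ => inferInstance, fun _ => lam_compl,
    fun _ => zero_le_one, by simp, by simp, rfl⟩

theorem Ker.m_le_PhiS (h : Ker l m M) : ∀ t ∈ PhiS l, m ≤ t := by
  rintro t ⟨k, ν, α, h1, _, h3, h4, _, rfl⟩
  calc m = ∑ i, α i * m := by rw [← Finset.sum_mul, h4, one_mul]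
    _ ≤ _ := Finset.sum_le_sum fun i _ => mul_le_mul_of_nonneg_left (h.m_le_ph _) (h3 i)

theorem Ker.m_le_Phi (h : Ker l m M) : m ≤ Phi l := le_csInf (PhiS_nonempty l) h.m_le_PhiS

theorem Ker.Phi_le (h : Ker l m M) {ι : Type} [Fintype ι] (ν : ι → Measure ℝ) (α : ι → ℝ)
    [h1 : ∀ i, IsProbabilityMeasure (ν i)] (h2 : ∀ i, ν i (Set.Icc (0:ℝ) 1)ᶜ = 0)
    (h3 : ∀ i, 0 ≤ α i)
    (h4 : ∀ S, MeasurableSet S → ∑ i, α i * (ν i).real S = lam.real S) :
    Phi l ≤ ∑ i, α i * ph l (ν i) := by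
  let e := (Fintype.equivFin ι).symm
  refine csInf_le ⟨m, h.m_le_PhiS⟩ ⟨_, ν ∘ e, α ∘ e, fun i => h1 _, fun i => h2 _, fun i => h3 _,
    ?_, ?_, (Equiv.sum_comp e fun i => α i * ph l (ν i)).symm⟩
  · have := h4 _ MeasurableSet.univ
    simp only [probReal_univ, mul_one] at this
    rw [← this]
    exact Equiv.sum_comp e α
  · ext S hS
    have a1 := Equiv.sum_comp e fun i => ENNReal.ofReal (α i) • ν i
    simp only [Function.comp]
    rw [a1, Measure.finsetSum_apply, ← ofReal_measureReal, ← h4 S hS,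
      ENNReal.ofReal_sum_of_nonneg fun i _ => mul_nonneg (h3 i) measureReal_nonneg]
    apply Finset.sum_congr rfl
    intro i _
    rw [Measure.smul_apply, smul_eq_mul, ENNReal.ofReal_mul (h3 i), ofReal_measureReal]

/-- the quadratic form of the block kernel on sub-profiles of one measure -/
theorem Ker.quad (h : Ker l m M) (ν : Measure ℝ) [IsProbabilityMeasure ν] {α : ℝ} (hα : 0 ≤ α)
    (hle : ENNReal.ofReal α • ν ≤ lam) {L : ℕ} {cell : ℝ → Fin L} (hc : Measurable cell)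
    (lb : Fin L → Fin L → ℝ) (hlb : ∀ a b, 0 ≤ lb a b ∧ lb a b ≤ M) {ζ : ℝ} (hζ : 0 < ζ)
    (hQ : Q (fun x y => |l x y - lb (cell x) (cell y)|) lam lam ≤ ζ ^ 2 / M)
    (y : Fin L → ℝ) (hy : ∀ a, 0 ≤ y a ∧ y a ≤ α * ν.real (cell ⁻¹' {a})) :
    ∑ a, ∑ b, y a * y b * lb a b ≤ (α * ph l ν + ζ) * ∑ a, y a := by
  have hM := h.Mpos
  have hY : 0 ≤ ∑ a, y a := Finset.sum_nonneg fun a _ => (hy a).1
  have hp : 0 ≤ α * ph l ν := mul_nonneg hα (h.pos.le.trans (h.m_le_ph ν))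
  rcases le_total (∑ a, y a) (ζ / M) with hs | hs
  · have a1 : ∑ a, ∑ b, y a * y b * lb a b ≤ ∑ a, ∑ b, y a * y b * M :=
      Finset.sum_le_sum fun a _ => Finset.sum_le_sum fun b _ =>
        mul_le_mul_of_nonneg_left (hlb a b).2 (mul_nonneg (hy a).1 (hy b).1)
    simp only [← Finset.sum_mul, ← Finset.mul_sum] at a1
    rw [le_div_iff₀ hM] at hs
    nlinarith [mul_le_mul_of_nonneg_left hs hY, mul_nonneg hp hY]
  set μ := ENNReal.ofReal α • ν with hμ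
  have := isFiniteMeasure_of_le lam hle
  have hr : ∀ S, μ.real S = α * ν.real S := fun S => by
    rw [hμ, measureReal_ennreal_smul_apply, ENNReal.toReal_ofReal hα]
  obtain ⟨S, hS, hSy⟩ := exists_sub_cells hle hc y fun a => by rw [hr]; exact hy a
  have a1 := Q_cell hc lb (μ.restrict S) (μ.restrict S)
  have a2 := sum_cell hc (μ.restrict S)
  simp only [hSy] at a1 a2
  rw [measureReal_restrict_apply_univ, hr] at a2
  have b1 := BM.cell hc lb
  have b2 := h.bm.absub b1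
  have a3 := Q_mono b1 (h.bm.add b2) (fun x y => by
    linarith [neg_abs_le (l x y - lb (cell x) (cell y))]) (μ.restrict S) (μ.restrict S)
  rw [Q_add h.bm b2] at a3
  have b3 : μ.restrict S ≤ lam := Measure.restrict_le_self.trans hle
  have a4 := Q_mono_meas b2 (fun _ _ => abs_nonneg _) b3 b3
  have a5 : Q l (μ.restrict S) (μ.restrict S) = α * α * Q l (ν.restrict S) (ν.restrict S) := by
    rw [hμ, Measure.restrict_smul, Q_smul, ENNReal.toReal_ofReal hα]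
  have a6 := mul_le_mul_of_nonneg_left (h.Q_le_ph ν hS) (mul_nonneg hα hα)
  have a7 : ζ ^ 2 / M ≤ ζ * ∑ a, y a := by
    rw [sq, mul_div_assoc]; exact mul_le_mul_of_nonneg_left hs hζ.le
  have a8 : α * α * (ph l ν * ν.real S) = α * ph l ν * ∑ a, y a := by rw [a2]; ring
  linarith

end Pool.Agent.H550Z.Gr
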