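import Pool.Agent.H550Z.Gr.Greedy

set_option autoImplicit false

open Finset Filter Topology

namespace Pool.Agent.H550Z.Gr

theorem tendsto_logn : Tendsto (fun n : ℕ => Real.log n) atTop atTop :=
  Real.tendsto_log_atTop.comp tendsto_natCast_atTop_atTop

theorem ev_log_ge (C : ℝ) : ∀ᶠ n : ℕ in atTop, C ≤ Real.log n :=
  tendsto_logn.eventually (eventually_ge_atTop C)

theorem ev_pow (C c : ℝ) (hc : 0 < c) (p : ℕ) :
    ∀ᶠ n : ℕ in atTop, C * Real.log n ^ p ≤ Real.exp (c * Real.log n) := by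
  have h1 := tendsto_exp_mul_div_rpow_atTop (p : ℝ) c hc
  have h2 := (h1.comp tendsto_logn).eventually (eventually_ge_atTop C)
  filter_upwards [h2, ev_log_ge 1] with n h3 h4
  have h5 : 0 < Real.log n ^ p := pow_pos (by linarith) p
  simp only [Function.comp, Real.rpow_natCast] at h3
  rwa [le_div_iff₀ h5] at h3

theorem exp_logn {n : ℕ} (h : 1 ≤ Real.log n) : Real.exp (Real.log n) = n := by
  apply Real.exp_log
  rcases Nat.eq_zero_or_pos n with rfl | hn
  · simp at h; linarith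
  · exact_mod_cast hn

theorem ev_pow_le (C : ℝ) (p : ℕ) : ∀ᶠ n : ℕ in atTop, C * Real.log n ^ p ≤ n := by
  filter_upwards [ev_pow C 1 one_pos p, ev_log_ge 1] with n h1 h2
  rwa [one_mul, exp_logn h2] at h1

theorem key_num {N b M η c ρ : ℝ} {t : ℕ} (hb : Real.exp b = N) (hb0 : 0 ≤ b) (hM : 0 < M)
    (hη0 : 0 < η) (hη : η ≤ 1 / 8) (hb1 : 11 * M / (2 * η) ≤ b)
    (hb2 : 48 ≤ Real.exp (3 / 8 * b)) (ht : 2 ≤ t) (hρ : Real.exp ((1 - η / 2) * b) ≤ ρ)
    (h1 : c ≤ M * (t : ℝ) ^ 2 / 2) (h2 : b / (2 * M) ≤ t → c ≤ (1 - η) * t * b) :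
    Real.exp c ≤ 1 / (48 * N) * ρ ^ t := by
  have ht' : (2 : ℝ) ≤ t := by exact_mod_cast ht
  have h3 : c ≤ t * ((1 - η / 2) * b) - 11 / 8 * b := by
    rcases le_or_gt (b / (2 * M)) t with h | h
    · have a1 := h2 h
      rw [div_le_iff₀ (by positivity)] at h hb1
      have a2 : 11 / 8 * b ≤ η * t * b / 2 := by
        have a3 : 11 ≤ 4 * η * t := by
          have : 11 * M ≤ (4 * η * t) * M := by nlinarith
          exact le_of_mul_le_mul_right this hM
        nlinarith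
      nlinarith
    · rw [lt_div_iff₀ (by positivity)] at h
      have a1 : M * (t : ℝ) ^ 2 / 2 ≤ t * b / 4 := by nlinarith
      have a2 : 2 * b ≤ t * b := by nlinarith
      have a3 : η * (t * b) ≤ 1 / 8 * (t * b) := by
        apply mul_le_mul_of_nonneg_right hη; positivity
      nlinarith
  have h4 : Real.exp (t * ((1 - η / 2) * b)) ≤ ρ ^ t := by
    rw [Real.exp_nat_mul]
    exact pow_le_pow_left₀ (Real.exp_pos _).le hρ t
  have hN : 0 < N := hb ▸ Real.exp_pos b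
  have h5 : Real.exp (-(11 / 8 * b)) ≤ 1 / (48 * N) := by
    rw [le_div_iff₀ (by positivity), ← hb]
    have : Real.exp (-(11 / 8 * b)) * (Real.exp (3 / 8 * b) * Real.exp b) = 1 := by
      rw [← Real.exp_add, ← Real.exp_add]
      have : -(11 / 8 * b) + (3 / 8 * b + b) = 0 := by ring
      rw [this, Real.exp_zero]
    have h6 := Real.exp_pos (-(11 / 8 * b))
    have h7 := Real.exp_pos b
    nlinarith [mul_le_mul_of_nonneg_right hb2 h7.le]
  calc Real.exp c ≤ Real.exp (-(11 / 8 * b) + t * ((1 - η / 2) * b)) :=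
        Real.exp_le_exp.2 (by linarith)
    _ = Real.exp (-(11 / 8 * b)) * Real.exp (t * ((1 - η / 2) * b)) := Real.exp_add _ _
    _ ≤ _ := mul_le_mul h5 h4 (Real.exp_pos _).le (by positivity)

variable {n : ℕ}

theorem c2_le_card {l : Fin n → Fin n → ℝ} {M : ℝ} (hM : 0 ≤ M) (hl : ∀ v w, l v w ≤ M)
    (T : Finset (Fin n)) : c2 l T ≤ M * (T.card : ℝ) ^ 2 := by
  have : c2 l T ≤ ∑ _v ∈ T, ∑ _w ∈ T, M := by
    unfold c2
    apply Finset.sum_le_sum
    intro v _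
    apply Finset.sum_le_sum
    intro w _
    split_ifs
    · exact hM
    · exact hl v w
  refine this.trans (le_of_eq ?_)
  simp only [sum_const, nsmul_eq_mul]
  ring

theorem c2_add (f g : Fin n → Fin n → ℝ) (T : Finset (Fin n)) :
    c2 (fun v w => f v w + g v w) T = c2 f T + c2 g T := by
  unfold c2
  rw [← Finset.sum_add_distrib]
  apply Finset.sum_congr rfl
  intro v _
  rw [← Finset.sum_add_distrib]
  apply Finset.sum_congr rfl
  intro w _
  split_ifs <;> simp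

theorem c2_le {f g : Fin n → Fin n → ℝ} (h : ∀ v w, f v w ≤ g v w) (T : Finset (Fin n)) :
    c2 f T ≤ c2 g T := by
  unfold c2
  apply Finset.sum_le_sum
  intro v _
  apply Finset.sum_le_sum
  intro w _
  split_ifs
  · exact le_rfl
  · exact h v w

theorem stage' {L : ℕ} (cell : Fin n → Fin L) {l : Fin n → Fin n → ℝ} {M η : ℝ} (hM : 0 < M)
    (hl : ∀ v w, 0 ≤ l v w) (hlM : ∀ v w, l v w ≤ M) (hs : ∀ v w, l v w = l w v)
    (hη0 : 0 < η) (hη : η ≤ 1 / 8) (hb0 : 1 ≤ Real.log n) (hb1 : 11 * M / (2 * η) ≤ Real.log n)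
    (hb2 : 48 ≤ Real.exp (3 / 8 * Real.log n))
    (k : Fin L → ℕ) {r : ℕ}
    (h : Fin n → Fin n → ℝ) (hh : ∀ v w, 0 ≤ h v w) {H : ℝ} (hH0 : 0 < H)
    (hH : c2 h univ ≤ H) {kk : ℝ} (hk : 0 < kk) (hS : ((∑ a, k a : ℕ) : ℝ) ≤ kk)
    (hρ : Real.exp ((1 - η / 2) * Real.log n) ≤ (r : ℝ) / kk)
    (hc : ∀ T : Finset (Fin n), (∀ a, cnt cell T a ≤ k a) → c2 h T ≤ 2 * H / (r : ℝ) ^ 2 →
      Real.log n / (2 * M) ≤ T.card → cost l T ≤ (1 - η) * T.card * Real.log n) :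
    Ex (pl l) (fun ω => I1 (∃ U : Finset (Fin n), (∀ a, r * k a ≤ cnt cell U a) ∧
      ¬ ∃ A ⊆ U, Indep ω A ∧ ∀ a, cnt cell A a = k a)) ≤ Real.exp (-(n : ℝ)) := by
  have hn : (0 : ℝ) < n := by rw [← exp_logn hb0]; exact Real.exp_pos _
  have hr : 0 < r := by
    rcases Nat.eq_zero_or_pos r with rfl | h
    · have := Real.exp_pos ((1 - η / 2) * Real.log n)
      simp at hρ; linarith
    · exact h
  refine (stage cell hl k hr h hh hH0 hH hk hS (B := 1 / (48 * n)) (by positivity) ?_).trans ?_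
  · intro T h1 h2 h3
    refine key_num (exp_logn hb0) (by linarith) hM hη0 hη hb1 hb2 h3 hρ ?_ (hc T h1 h2)
    have a1 := two_cost hs T
    have a2 := c2_le_card hM.le hlM T
    linarith
  · have a1 : (1 : ℝ) / (24 * (1 / (48 * n))) = 2 * n := by field_simp; ring
    rw [a1]
    have a2 : (2 : ℝ) ^ n ≤ Real.exp n := by
      rw [← mul_one (n : ℝ), Real.exp_nat_mul]
      apply pow_le_pow_left₀ (by norm_num)
      linarith [Real.add_one_le_exp 1]
    calc (2 : ℝ) ^ n * Real.exp (-(2 * n)) ≤ Real.exp n * Real.exp (-(2 * n)) :=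
          mul_le_mul_of_nonneg_right a2 (Real.exp_pos _).le
      _ = _ := by rw [← Real.exp_add]; congr 1; ring

theorem floor_mul_floor {x y : ℝ} (hx : 0 ≤ x) (hy : 0 ≤ y) :
    x * y - x - y ≤ (⌊x⌋₊ : ℝ) * ⌊y⌋₊ := by
  have h1 := Nat.lt_floor_add_one x
  have h2 := Nat.lt_floor_add_one y
  have h3 := Nat.floor_le hx
  have h4 := Nat.floor_le hy
  nlinarith [mul_nonneg (sub_nonneg.2 h3) (sub_nonneg.2 h4)]

theorem half_le_floor {x : ℝ} (hx : 2 ≤ x) : x / 2 ≤ (⌊x⌋₊ : ℝ) := by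
  have h1 := Nat.lt_floor_add_one x
  linarith

/-- the crude stage: every large set contains an independent set of size about `log n / M` -/
theorem crude {M : ℝ} (hM : 0 < M) : ∀ᶠ n : ℕ in atTop, ∀ l : Fin n → Fin n → ℝ,
    (∀ v w, 0 ≤ l v w) → (∀ v w, l v w ≤ M) → (∀ v w, l v w = l w v) →
    Ex (pl l) (fun ω => I1 (¬ ∀ U : Finset (Fin n), ∃ m : ℕ, Cov ω U m ∧
      (m : ℝ) ≤ 2 * M * U.card / Real.log n + n / (M * Real.log n ^ 2))) ≤
      Real.exp (-(n : ℝ)) := by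
  filter_upwards [ev_log_ge 1, ev_log_ge (11 * M / (2 * (1 / 8))), ev_pow 48 (3 / 8) (by norm_num) 0,
    ev_log_ge (2 * M), ev_pow_le 2 3, ev_pow (2 / M) (1 / 16) (by norm_num) 4]
    with n hb0 hb1 hb2 hb3 hb4 hb5 l hl hlM hs
  set b := Real.log n with hb
  have hbp : 0 < b := by linarith
  have hn : (0 : ℝ) < n := by rw [← exp_logn hb0]; exact Real.exp_pos _
  set k' := ⌊b / M⌋₊ with hk'
  set r' := ⌊(n : ℝ) / b ^ 3⌋₊ with hr'
  have k1 : (k' : ℝ) ≤ b / M := Nat.floor_le (by positivity)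
  have k2 : b / M / 2 ≤ k' := half_le_floor (by rw [le_div_iff₀ hM]; linarith)
  have r1 : (r' : ℝ) ≤ n / b ^ 3 := Nat.floor_le (by positivity)
  have r2 : n / b ^ 3 / 2 ≤ r' := half_le_floor (by rw [le_div_iff₀ (by positivity)]; linarith)
  have k0 : (0 : ℝ) < k' := lt_of_lt_of_le (by positivity) k2
  have hcnt : ∀ (T : Finset (Fin n)) (a : Fin 1), cnt (fun _ : Fin n => (0 : Fin 1)) T a = T.card := by
    intro T a
    unfold cnt
    rw [Finset.filter_true_of_mem fun v _ => Subsingleton.elim _ _]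
  refine le_trans (Ex_mono (pl_mem hl) fun ω => I1_mono ?_)
    (stage' (fun _ : Fin n => (0 : Fin 1)) hM hl hlM hs (η := 1 / 8) (by norm_num) le_rfl hb0 hb1
      (by simpa using hb2) (fun _ => k') (r := r') (fun _ _ => 0) (fun _ _ => le_rfl) one_pos
      (by simp [c2]) (kk := b / M) (by positivity) (by simpa using k1) ?_ ?_)
  · intro hno
    by_contra hc
    apply hno
    intro U
    refine ⟨_, cov_crude (k := k') (s := r' * k') (by exact_mod_cast k0) ?_ U, ?_⟩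
    · intro U hU
      by_contra h2
      refine hc ⟨U, fun a => by rw [hcnt]; exact hU, ?_⟩
      rintro ⟨A, h3, h4, h5⟩
      exact h2 ⟨A, h3, h4, by rw [← hcnt A 0]; exact h5 0⟩
    · push_cast
      have a1 : ((U.card / k' : ℕ) : ℝ) ≤ U.card / k' := Nat.cast_div_le
      have a2 : (U.card : ℝ) / k' ≤ 2 * M * U.card / b := by
        rw [div_le_div_iff₀ k0 hbp]
        rw [div_div, div_le_iff₀ (by positivity)] at k2
        nlinarith [mul_le_mul_of_nonneg_left k2 (Nat.cast_nonneg (α := ℝ) U.card)]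
      have a3 : (r' : ℝ) * k' ≤ n / b ^ 3 * (b / M) := mul_le_mul r1 k1 k0.le (by positivity)
      have a4 : n / b ^ 3 * (b / M) = n / (M * b ^ 2) := by field_simp
      linarith
  · have a1 : Real.exp ((1 - 1 / 8 / 2) * b) * Real.exp (1 / 16 * b) = n := by
      rw [← Real.exp_add, ← exp_logn hb0]; congr 1; ring
    rw [le_div_iff₀ (by positivity)]
    refine le_trans ?_ r2
    rw [le_div_iff₀ (by norm_num), le_div_iff₀ (by positivity)]
    have a2 : Real.exp ((1 - 1 / 8 / 2) * b) * (b / M) * 2 * b ^ 3 =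
        Real.exp ((1 - 1 / 8 / 2) * b) * (2 / M * b ^ 4) := by ring
    exact a2.le.trans ((mul_le_mul_of_nonneg_left hb5 (Real.exp_pos _).le).trans a1.le)
  · intro T h1 _ _
    have a1 := two_cost hs T
    have a2 := c2_le_card hM.le hlM T
    have a3 : (T.card : ℝ) ≤ b / M := by
      refine le_trans ?_ k1
      have := h1 0
      rw [hcnt] at this
      exact_mod_cast this
    rw [le_div_iff₀ hM] at a3
    have a4 : (0 : ℝ) ≤ T.card := Nat.cast_nonneg _
    nlinarith [mul_le_mul_of_nonneg_left a3 a4, mul_nonneg a4 hbp.le]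

theorem upper_fixed {M η γ ζ δ : ℝ} (hM : 0 < M) (hη0 : 0 < η) (hη : η ≤ 1 / 8) (hγ0 : 0 < γ)
    (hγ : γ ≤ 1 / 2) (hζ : 0 < ζ) (hδ0 : 0 < δ) (hδ : δ ≤ η * (γ * ζ) ^ 2 / (32 * M)) {L K : ℕ}
    (u : Fin K → Fin L → ℝ) (hu : ∀ i a, 0 ≤ u i a) (hsum : ∑ a, ∑ i, u i a = 1)
    (Ψ : Fin K → ℝ) (hΨ : ∀ i, ζ ≤ Ψ i) (lb : Fin L → Fin L → ℝ) (hlb : ∀ a b, 0 ≤ lb a b)
    (hq : ∀ i (y : Fin L → ℝ), (∀ a, 0 ≤ y a ∧ y a ≤ u i a) →
      ∑ a, ∑ b, y a * y b * lb a b ≤ Ψ i * ∑ a, y a) :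
    ∀ᶠ n : ℕ in atTop, ∀ (l : Fin n → Fin n → ℝ) (cell : Fin n → Fin L) (h : Fin n → Fin n → ℝ),
      (∀ v w, 0 ≤ l v w) → (∀ v w, l v w ≤ M) → (∀ v w, l v w = l w v) → (∀ v w, 0 ≤ h v w) →
      (∀ v w, l v w ≤ lb (cell v) (cell w) + h v w) →
      (∀ a, (1 - γ) * n * ∑ i, u i a ≤ cnt cell univ a) → c2 h univ ≤ δ * (n : ℝ) ^ 2 →
      Ex (pl l) (fun ω => I1 (((∑ i, Ψ i) * (1 + 4 * η) + 12 * γ * M + γ) * n /
        (2 * Real.log n) < chi ω)) ≤ (K + 1) * Real.exp (-(n : ℝ)) := by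
  filter_upwards [crude hM, ev_log_ge 1, ev_log_ge (11 * M / (2 * η)),
    ev_pow 48 (3 / 8) (by norm_num) 0, ev_pow_le (4 / (γ * ζ)) 1,
    ev_pow (8 / (γ * ζ ^ 2)) (η / 2) (by positivity) 2, ev_log_ge (2 * L * (∑ i, Ψ i) / γ),
    ev_log_ge (2 / (M * γ))]
    with n hcr hb0 hb1 hb2 hb3 hb4 hb5 hb6 l cell h hl hlM hs hh hlh hcnt hH
  have hcr' := hcr l hl hlM hs
  clear hcr
  set b := Real.log n with hb
  have hbp : 0 < b := by linarith
  have hn : (0 : ℝ) < n := by rw [← exp_logn hb0]; exact Real.exp_pos _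
  have hΨ0 : ∀ i, 0 < Ψ i := fun i => hζ.trans_le (hΨ i)
  have hη2 : 0 < 1 - 2 * η := by linarith
  set κ : Fin K → ℝ := fun i => 2 * (1 - 2 * η) * b / Ψ i with hκ
  have κ0 : ∀ i, 0 < κ i := fun i => by have := hΨ0 i; simp only [hκ]; positivity
  have κ1 : ∀ i, κ i ≤ 2 * b / ζ := fun i => by
    simp only [hκ]
    rw [div_le_div_iff₀ (hΨ0 i) hζ]
    have := hΨ i
    nlinarith [mul_le_mul_of_nonneg_left this hbp.le, mul_pos hbp hζ, mul_pos hη0 (mul_pos hbp hζ)]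
  have κ2 : ∀ i, κ i * Ψ i = 2 * (1 - 2 * η) * b := fun i => by
    have := hΨ0 i
    simp only [hκ]; field_simp
  set k : Fin K → Fin L → ℕ := fun i a => ⌊κ i * u i a⌋₊ with hk
  set R : Fin K → ℕ := fun i => ⌊(1 - 2 * γ) * n / κ i⌋₊ with hR
  set r : ℕ := ⌊γ * ζ * n / (2 * b)⌋₊ with hr
  have hγ2 : 0 ≤ 1 - 2 * γ := by linarith
  have k1 : ∀ i a, (k i a : ℝ) ≤ κ i * u i a := fun i a =>
    Nat.floor_le (mul_nonneg (κ0 i).le (hu i a))
  have R0 : ∀ i, 0 ≤ (1 - 2 * γ) * n / κ i := fun i => by have := κ0 i; positivity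
  have R1 : ∀ i, (R i : ℝ) ≤ (1 - 2 * γ) * n / κ i := fun i => Nat.floor_le (R0 i)
  have R2 : ∀ i, (1 - 2 * γ) * n / κ i ≤ Ψ i * (1 + 4 * η) * n / (2 * b) := fun i => by
    rw [div_le_div_iff₀ (κ0 i) (by positivity)]
    have a1 : Ψ i * (1 + 4 * η) * n * κ i = (1 + 4 * η) * (1 - 2 * η) * (n * (2 * b)) := by
      linear_combination (1 + 4 * η) * n * κ2 i
    rw [a1, mul_assoc]
    apply mul_le_mul_of_nonneg_right _ (by positivity)
    nlinarith
  have r1 : (r : ℝ) ≤ γ * ζ * n / (2 * b) := Nat.floor_le (by positivity)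
  rw [pow_one, div_mul_eq_mul_div, div_le_iff₀ (by positivity)] at hb3
  have r2 : γ * ζ * n / (2 * b) / 2 ≤ r :=
    half_le_floor (by rw [le_div_iff₀ (by positivity)]; linarith)
  have r0 : (0 : ℝ) < r := lt_of_lt_of_le (by positivity) r2
  have u1 : ∀ i a, u i a ≤ ∑ j, u j a := fun i a =>
    Finset.single_le_sum (f := fun j => u j a) (fun j _ => hu j a) (mem_univ i)
  have u2 : ∀ i, ∑ a, u i a ≤ 1 := fun i => by
    rw [← hsum]; exact Finset.sum_le_sum fun a _ => u1 i a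
  have hbad : ∀ i, Ex (pl l) (fun ω => I1 (∃ U : Finset (Fin n), (∀ a, r * k i a ≤ cnt cell U a) ∧
      ¬ ∃ A ⊆ U, Indep ω A ∧ ∀ a, cnt cell A a = k i a)) ≤ Real.exp (-(n : ℝ)) := by
    intro i
    refine stage' cell hM hl hlM hs hη0 hη hb0 hb1 (by simpa using hb2) (k i) h hh
      (H := δ * (n : ℝ) ^ 2) (by positivity) hH (kk := 2 * b / ζ) (by positivity) ?_ ?_ ?_
    · push_cast
      refine (Finset.sum_le_sum fun a _ => k1 i a).trans ?_
      rw [← Finset.mul_sum]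
      exact (mul_le_of_le_one_right (κ0 i).le (u2 i)).trans (κ1 i)
    · have a1 : Real.exp ((1 - η / 2) * b) * Real.exp (η / 2 * b) = n := by
        rw [← Real.exp_add, ← exp_logn hb0]; congr 1; ring
      rw [le_div_iff₀ (by positivity)]
      refine le_trans ?_ r2
      have a2 := (mul_le_mul_of_nonneg_left hb4 (Real.exp_pos ((1 - η / 2) * b)).le).trans a1.le
      have a3 : Real.exp ((1 - η / 2) * b) * (2 * b / ζ) =
          γ * ζ * (Real.exp ((1 - η / 2) * b) * (8 / (γ * ζ ^ 2) * b ^ 2)) / (2 * b) / 2 := by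
        field_simp; ring
      refine a3.le.trans ?_
      gcongr
    · intro T h1 h2 h3
      have a1 := two_cost hs T
      have a2 := (c2_le hlh T).trans (c2_add _ _ T).le
      have a3 := c2_block cell lb hlb T
      have a4 := hq i (fun a => cnt cell T a / κ i) fun a => ⟨by have := κ0 i; positivity, by
        rw [div_le_iff₀ (κ0 i), mul_comm]
        exact le_trans (by exact_mod_cast h1 a) (k1 i a)⟩
      have a5 : ∑ a, (cnt cell T a : ℝ) / κ i = T.card / κ i := by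
        rw [← Finset.sum_div, card_eq_sum_cnt cell T]; push_cast; rfl
      have a6 : ∑ a, ∑ b, (cnt cell T a : ℝ) * (cnt cell T b : ℝ) * lb a b =
          κ i ^ 2 * ∑ a, ∑ b, cnt cell T a / κ i * (cnt cell T b / κ i) * lb a b := by
        rw [Finset.mul_sum]
        apply Finset.sum_congr rfl
        intro a _
        rw [Finset.mul_sum]
        apply Finset.sum_congr rfl
        intro c _
        have := κ0 i
        field_simp
      rw [a5] at a4
      have a7 : κ i ^ 2 * (Ψ i * (T.card / κ i)) = 2 * (1 - 2 * η) * b * T.card := by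
        rw [← κ2 i]
        have := κ0 i
        field_simp
      have a8 := mul_le_mul_of_nonneg_left a4 (sq_nonneg (κ i))
      have a9 : 2 * (δ * (n : ℝ) ^ 2) / (r : ℝ) ^ 2 ≤ η * b ^ 2 / M := by
        have c1 : (γ * ζ * n / (2 * b) / 2) ^ 2 ≤ (r : ℝ) ^ 2 := by gcongr
        have c2 : 2 * (η * (γ * ζ) ^ 2 / (32 * M) * (n : ℝ) ^ 2) =
            η * b ^ 2 / M * (γ * ζ * n / (2 * b) / 2) ^ 2 := by field_simp; ring
        rw [div_le_iff₀ (by positivity)]
        calc 2 * (δ * (n : ℝ) ^ 2) ≤ 2 * (η * (γ * ζ) ^ 2 / (32 * M) * (n : ℝ) ^ 2) := by gcongr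
          _ = _ := c2
          _ ≤ _ := by gcongr
      have a10 : η * b ^ 2 / M ≤ 2 * η * b * T.card := by
        rw [div_le_iff₀ (by positivity)] at h3
        rw [div_le_iff₀ hM]
        nlinarith [mul_le_mul_of_nonneg_left h3 (mul_pos hη0 hbp).le]
      change _ ≤ (1 - η) * T.card * b
      linarith
  refine le_trans (Ex_mono (pl_mem hl) (h' := fun ω => ∑ i, I1 (∃ U : Finset (Fin n),
      (∀ a, r * k i a ≤ cnt cell U a) ∧ ¬ ∃ A ⊆ U, Indep ω A ∧ ∀ a, cnt cell A a = k i a) +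
      I1 (¬ ∀ U : Finset (Fin n), ∃ m : ℕ, Cov ω U m ∧
      (m : ℝ) ≤ 2 * M * U.card / b + n / (M * b ^ 2))) fun ω => ?_) ?_
  swap
  · rw [Ex_add, Ex_sum]
    have := Finset.sum_le_sum fun i (_ : i ∈ univ) => hbad i
    rw [sum_const, card_univ, Fintype.card_fin, nsmul_eq_mul] at this
    linarith
  refine le_trans (I1_mono ?_) ((I1_or_le _ _).trans (add_le_add (I1_exists_le _) le_rfl))
  intro hchi
  by_contra hcon
  rw [not_or, not_not, not_exists] at hcon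
  obtain ⟨g1, g2⟩ := hcon
  have q0 : ∀ a, 0 ≤ ∑ i, u i a := fun a => Finset.sum_nonneg fun i _ => hu i a
  obtain ⟨U', e1, e2⟩ := cov_all cell (ω := ω) (fun a => ⌊γ * n * ∑ i, u i a⌋₊) k (by
    intro i U hU
    by_contra hno
    refine g1 i ⟨U, fun a => le_trans (Nat.le_floor ?_) (hU a), hno⟩
    push_cast
    calc (r : ℝ) * k i a ≤ γ * ζ * n / (2 * b) * (2 * b / ζ * ∑ i, u i a) := by
          refine mul_le_mul r1 ((k1 i a).trans ?_) (Nat.cast_nonneg _) (by positivity)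
          exact mul_le_mul (κ1 i) (u1 i a) (hu i a) (by positivity)
      _ = _ := by field_simp) R univ univ (by
    intro a
    have a1 : (⌊γ * n * ∑ i, u i a⌋₊ : ℝ) ≤ γ * n * ∑ i, u i a :=
      Nat.floor_le (by have := q0 a; positivity)
    have a2 : ∑ i, (R i : ℝ) * k i a ≤ (1 - 2 * γ) * n * ∑ i, u i a := by
      rw [Finset.mul_sum]
      apply Finset.sum_le_sum
      intro i _
      refine (mul_le_mul (R1 i) (k1 i a) (Nat.cast_nonneg _) (R0 i)).trans (le_of_eq ?_)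
      have := κ0 i
      field_simp
    have a3 := hcnt a
    have : ((⌊γ * n * ∑ i, u i a⌋₊ + ∑ i, R i * k i a : ℕ) : ℝ) ≤ cnt cell univ a := by
      push_cast
      linarith
    exact_mod_cast this)
  obtain ⟨m, m1, m2⟩ := g2 U'
  have c1 : (chi ω : ℝ) ≤ m + ∑ i, (R i : ℝ) := by exact_mod_cast chi_le_of_cov (e2 m m1)
  have c2 : ∑ i, (R i : ℝ) ≤ (∑ i, Ψ i) * (1 + 4 * η) * n / (2 * b) := by
    rw [Finset.sum_mul, Finset.sum_mul, Finset.sum_div]
    exact Finset.sum_le_sum fun i _ => (R1 i).trans (R2 i)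
  have c3 : (U'.card : ℝ) + ∑ a, ∑ i, (R i : ℝ) * k i a = n := by
    have a1 : U'.card + ∑ a, ∑ i, R i * k i a = n := by
      rw [card_eq_sum_cnt cell U', ← Finset.sum_add_distrib, Finset.sum_congr rfl fun a _ => e1 a,
        ← card_eq_sum_cnt, card_univ, Fintype.card_fin]
    exact_mod_cast a1
  have c4 : ∑ a, ∑ i, ((1 - 2 * γ) * n * u i a - Ψ i * n / b - 2 * b / ζ * u i a) ≤
      ∑ a, ∑ i, (R i : ℝ) * k i a := by
    apply Finset.sum_le_sum
    intro a _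
    apply Finset.sum_le_sum
    intro i _
    refine le_trans ?_ (floor_mul_floor (R0 i) (mul_nonneg (κ0 i).le (hu i a)))
    have a1 : (1 - 2 * γ) * n / κ i * (κ i * u i a) = (1 - 2 * γ) * n * u i a := by
      have := κ0 i
      field_simp
    have a2 : Ψ i * (1 + 4 * η) * n / (2 * b) ≤ Ψ i * n / b := by
      rw [div_le_div_iff₀ (by positivity) hbp]
      have := mul_pos (hΨ0 i) (mul_pos hn hbp)
      nlinarith
    have a3 := mul_le_mul_of_nonneg_right (κ1 i) (hu i a)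
    have a4 := R2 i
    linarith
  have c5 : ∑ a, ∑ i, ((1 - 2 * γ) * n * u i a - Ψ i * n / b - 2 * b / ζ * u i a) =
      (1 - 2 * γ) * n - L * (∑ i, Ψ i) * n / b - 2 * b / ζ := by
    simp only [Finset.sum_sub_distrib, ← Finset.mul_sum, hsum, ← Finset.sum_div, ← Finset.sum_mul,
      sum_const, card_univ, Fintype.card_fin, nsmul_eq_mul]
    ring
  have c6 : L * (∑ i, Ψ i) * n / b ≤ γ * n / 2 := by
    rw [div_le_iff₀ hγ0] at hb5
    rw [div_le_iff₀ hbp]
    nlinarith [mul_le_mul_of_nonneg_right hb5 hn.le]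
  have c7 : 2 * b / ζ ≤ γ * n / 2 := by
    rw [div_le_iff₀ hζ]
    nlinarith
  have c8 : (U'.card : ℝ) ≤ 3 * γ * n := by linarith
  have c9 : 2 * M * U'.card / b ≤ 12 * γ * M * n / (2 * b) := by
    rw [div_le_div_iff₀ hbp (by positivity)]
    nlinarith [mul_le_mul_of_nonneg_left c8 (mul_pos hM hbp).le]
  have c10 : n / (M * b ^ 2) ≤ γ * n / (2 * b) := by
    rw [div_le_iff₀ (by positivity)] at hb6
    rw [div_le_div_iff₀ (by positivity) (by positivity)]
    nlinarith [mul_le_mul_of_nonneg_left hb6 (mul_pos hn hbp).le]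
  have c11 : ((∑ i, Ψ i) * (1 + 4 * η) + 12 * γ * M + γ) * n / (2 * b) =
      (∑ i, Ψ i) * (1 + 4 * η) * n / (2 * b) + 12 * γ * M * n / (2 * b) + γ * n / (2 * b) := by
    ring
  linarith

end Pool.Agent.H550Z.Gr
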