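import Pool.Agent.H550Z.Gr.Phi
import Pool.Agent.H550Z.Gr.Upper

set_option autoImplicit false

open MeasureTheory Finset Filter Topology

namespace Pool.Agent.H550Z.Gr

noncomputable def piM (n : ℕ) : Measure (Fin n → ℝ) := Measure.pi fun _ => lam

instance (n : ℕ) : IsProbabilityMeasure (piM n) := by unfold piM; infer_instance

variable {n : ℕ}

def lx (l : ℝ → ℝ → ℝ) (x : Fin n → ℝ) : Fin n → Fin n → ℝ := fun i j => l (x i) (x j)

theorem pair_map {i j : Fin n} (h : i ≠ j) :
    (piM n).map (fun x => (x i, x j)) = lam.prod lam := by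
  have h1 := (ProbabilityTheory.iIndepFun_pi (μ := fun _ : Fin n => lam) (X := fun _ => id)
    fun _ => aemeasurable_id).indepFun h
  have h2 := (ProbabilityTheory.indepFun_iff_map_prod_eq_prod_map_map
    (measurable_pi_apply i).aemeasurable (measurable_pi_apply j).aemeasurable).1 h1
  rw [(measurePreserving_eval (fun _ : Fin n => lam) i).map_eq,
    (measurePreserving_eval (fun _ : Fin n => lam) j).map_eq] at h2
  exact h2

theorem meas_pair {f : ℝ → ℝ → ℝ} (hf : Measurable (Function.uncurry f)) (i j : Fin n) :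
    Measurable fun x : Fin n → ℝ => f (x i) (x j) :=
  hf.comp (f := fun x : Fin n → ℝ => (x i, x j))
    ((measurable_pi_apply i).prodMk (measurable_pi_apply j))

theorem BM.int_pair {f : ℝ → ℝ → ℝ} (hf : BM f) (i j : Fin n) :
    Integrable (fun x : Fin n → ℝ => f (x i) (x j)) (piM n) := by
  obtain ⟨C, hC⟩ := hf.bdd
  exact Integrable.of_bound (meas_pair hf.meas i j).aestronglyMeasurable C
    (ae_of_all _ fun x => hC _ _)

theorem int_pair {f : ℝ → ℝ → ℝ} (hf : BM f) {i j : Fin n} (h : i ≠ j) :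
    ∫ x, f (x i) (x j) ∂(piM n) = Q f lam lam := by
  rw [Q_prod hf, ← pair_map h, integral_map
    ((measurable_pi_apply i).prodMk (measurable_pi_apply j)).aemeasurable
    hf.meas.aestronglyMeasurable]

theorem BM.int_ite {f : ℝ → ℝ → ℝ} (hf : BM f) (i j : Fin n) :
    Integrable (fun x : Fin n → ℝ => if i = j then 0 else f (x i) (x j)) (piM n) := by
  by_cases h : i = j
  · simp [h]
  · simpa [h] using hf.int_pair i j

theorem BM.int_c2 {f : ℝ → ℝ → ℝ} (hf : BM f) :
    Integrable (fun x : Fin n → ℝ => c2 (lx f x) univ) (piM n) :=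
  integrable_finsetSum _ fun i _ => integrable_finsetSum _ fun j _ => hf.int_ite i j

theorem int_c2_le {f : ℝ → ℝ → ℝ} (hf : BM f) {δ : ℝ} (hδ : 0 ≤ δ) (hQ : Q f lam lam ≤ δ) :
    ∫ x, c2 (lx f x) univ ∂(piM n) ≤ δ * (n : ℝ) ^ 2 := by
  refine le_trans (le_of_eq ?_) (c2_le_card (l := fun _ _ : Fin n => Q f lam lam) hδ
    (fun _ _ => hQ) univ) |>.trans (by simp)
  unfold c2 lx
  rw [integral_finsetSum _ fun i _ => integrable_finsetSum _ fun j _ => hf.int_ite i j]
  apply Finset.sum_congr rfl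
  intro i _
  rw [integral_finsetSum _ fun j _ => hf.int_ite i j]
  apply Finset.sum_congr rfl
  intro j _
  by_cases h : i = j
  · simp [h]
  · simp only [h, if_false]
    exact int_pair hf h

theorem c2_nonneg {h : Fin n → Fin n → ℝ} (hh : ∀ v w, 0 ≤ h v w) (T : Finset (Fin n)) :
    0 ≤ c2 h T := by
  simpa [c2] using c2_mono hh (empty_subset T)

variable {l : ℝ → ℝ → ℝ} {m M : ℝ}

theorem Ker.pl_mem (h : Ker l m M) (x : Fin n → ℝ) (e : Ed n) :
    0 ≤ pl (lx l x) e ∧ pl (lx l x) e ≤ 1 := Gr.pl_mem (fun _ _ => h.nonneg _ _) e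

theorem meas_wt (hl : Measurable (Function.uncurry l)) (ω : Ed n → Bool) :
    Measurable fun x : Fin n → ℝ => wt (pl (lx l x)) ω := by
  unfold wt
  apply Finset.measurable_prod
  intro e _
  have : Measurable fun x : Fin n → ℝ => pl (lx l x) e :=
    measurable_const.sub (Real.measurable_exp.comp (meas_pair hl _ _).neg)
  split_ifs
  · exact this
  · exact measurable_const.sub this

theorem Ker.int_wt (h : Ker l m M) (ω : Ed n → Bool) {F : (Fin n → ℝ) → ℝ}
    (hF : Integrable F (piM n)) : Integrable (fun x => wt (pl (lx l x)) ω * F x) (piM n) := by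
  refine hF.bdd_mul (c := 1) (meas_wt h.meas ω).aestronglyMeasurable (ae_of_all _ fun x => ?_)
  rw [Real.norm_of_nonneg (wt_nonneg (h.pl_mem x) ω), ← sum_wt (pl (lx l x))]
  exact Finset.single_le_sum (f := fun ω => wt (pl (lx l x)) ω)
    (fun ω _ => wt_nonneg (h.pl_mem x) ω) (mem_univ ω)

theorem Ker.int_Ex (h : Ker l m M) {F : (Fin n → ℝ) → (Ed n → Bool) → ℝ}
    (hF : ∀ ω, Integrable (fun x => F x ω) (piM n)) :
    Integrable (fun x => Ex (pl (lx l x)) (F x)) (piM n) :=
  integrable_finsetSum _ fun ω _ => h.int_wt ω (hF ω)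

/-- expectation over the random graph of a function of its edge set -/
noncomputable def PE (l : ℝ → ℝ → ℝ) (n : ℕ) (F : (Ed n → Bool) → ℝ) : ℝ :=
  ∫ x, Ex (pl (lx l x)) F ∂(piM n)

theorem Ker.int_PE (h : Ker l m M) (F : (Ed n → Bool) → ℝ) :
    Integrable (fun x => Ex (pl (lx l x)) F) (piM n) :=
  h.int_Ex (F := fun _ => F) fun _ => integrable_const _

theorem Ker.PE_nonneg (h : Ker l m M) {F : (Ed n → Bool) → ℝ} (hF : ∀ ω, 0 ≤ F ω) :
    0 ≤ PE l n F := integral_nonneg fun x => Ex_nonneg (h.pl_mem x) hF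

theorem Ker.PE_mono (h : Ker l m M) {F G : (Ed n → Bool) → ℝ} (hF : ∀ ω, F ω ≤ G ω) :
    PE l n F ≤ PE l n G :=
  integral_mono (h.int_PE F) (h.int_PE G) fun x => Ex_mono (h.pl_mem x) hF

theorem tendsto_zero_of {f : ℕ → ℝ} (h0 : ∀ n, 0 ≤ f n)
    (h : ∀ ε, 0 < ε → ∀ᶠ n in atTop, f n ≤ ε) : Tendsto f atTop (𝓝 0) := by
  rw [tendsto_order]
  refine ⟨fun a ha => Eventually.of_forall fun n => ha.trans_le (h0 n), fun a ha => ?_⟩
  filter_upwards [h (a / 2) (half_pos ha)] with n hn
  linarith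

theorem cheb {L : ℕ} {cell : ℝ → Fin L} (hc : Measurable cell) (a : Fin L) :
    ∃ f : ℝ → ℝ → ℝ, BM f ∧ Q f lam lam ≤ 0 ∧ ∀ (n : ℕ) (x : Fin n → ℝ),
      ((cnt (fun v => cell (x v)) univ a : ℝ) - n * lam.real (cell ⁻¹' {a})) ^ 2 ≤
        c2 (lx f x) univ + n := by
  set q := lam.real (cell ⁻¹' {a}) with hq
  let G : Fin L → ℝ := fun b => (if b = a then 1 else 0) - q
  have q0 : 0 ≤ q := measureReal_nonneg
  have q1 : q ≤ 1 := measureReal_le_one
  refine ⟨fun x y => G (cell x) * G (cell y), BM.cell hc fun b c => G b * G c, ?_, fun n x => ?_⟩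
  · rw [Q_cell hc fun b c => G b * G c]
    have a1 : ∑ b, lam.real (cell ⁻¹' {b}) * G b = 0 := by
      simp only [G, mul_sub, Finset.sum_sub_distrib, ← Finset.sum_mul, sum_cell hc, mul_ite,
        mul_one, mul_zero, Finset.sum_ite_eq', mem_univ, if_true, probReal_univ, one_mul]
      exact sub_self _
    have a2 := Finset.sum_mul_sum univ univ (fun b => lam.real (cell ⁻¹' {b}) * G b)
      (fun b => lam.real (cell ⁻¹' {b}) * G b)
    rw [a1, mul_zero] at a2
    refine le_of_eq (Eq.trans ?_ a2.symm)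
    apply Finset.sum_congr rfl
    intro b _
    apply Finset.sum_congr rfl
    intro c _
    ring
  · have a1 : (cnt (fun v => cell (x v)) univ a : ℝ) - n * q = ∑ v, G (cell (x v)) := by
      simp only [G, Finset.sum_sub_distrib, cnt, Finset.card_filter, sum_const, card_univ,
        Fintype.card_fin, nsmul_eq_mul]
      push_cast
      rfl
    rw [a1, sq, Finset.sum_mul_sum]
    have a2 : (n : ℝ) = ∑ v : Fin n, ∑ w : Fin n, if v = w then 1 else 0 := by simp
    rw [a2]
    unfold c2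
    rw [← Finset.sum_add_distrib]
    apply Finset.sum_le_sum
    intro v _
    rw [← Finset.sum_add_distrib]
    apply Finset.sum_le_sum
    intro w _
    by_cases hvw : v = w
    · subst hvw
      simp only [if_true, zero_add, G]
      split_ifs <;> nlinarith
    · simp [hvw, lx]

theorem Ker.upper (h : Ker l m M) {ε : ℝ} (hε : 0 < ε) :
    Tendsto (fun n : ℕ => PE l n fun ω =>
      I1 ((1 + ε) * (Phi l * n / (2 * Real.log n)) < chi ω)) atTop (𝓝 0) := by
  refine tendsto_zero_of (fun n => h.PE_nonneg fun _ => I1_nonneg _) fun ε2 hε2 => ?_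
  have hM := h.Mpos
  have hΦ : 0 < Phi l := h.pos.trans_le h.m_le_Phi
  set s := ε * Phi l with hs
  have hs0 : 0 < s := mul_pos hε hΦ
  obtain ⟨t, ⟨k, ν, α, h1, h2, h3, h4, h5, rfl⟩, ht⟩ :=
    exists_lt_of_csInf_lt (PhiS_nonempty l) (show Phi l < Phi l + s / 8 by linarith)
  set ζ := s / (8 * (k + 1)) with hζ
  have hζ0 : 0 < ζ := by positivity
  set η := min (1 / 8) (s / (16 * (Phi l + s))) with hη
  have hη0 : 0 < η := lt_min (by norm_num) (by positivity)
  set γ := min (1 / 2) (s / (4 * (12 * M + 1))) with hγ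
  have hγ0 : 0 < γ := lt_min (by norm_num) (by positivity)
  set δ := η * (γ * ζ) ^ 2 / (32 * M) with hδ
  have hδ0 : 0 < δ := by positivity
  obtain ⟨L, cell, hc, lb, hlb, hQ⟩ := block_approx h.bm h.nonneg h.hi
    (δ := min (ζ ^ 2 / M) (δ * (ε2 / 3))) (lt_min (by positivity) (by positivity))
  have hle : ∀ i, ENNReal.ofReal (α i) • ν i ≤ lam := fun i => by
    rw [← h5]
    exact Finset.single_le_sum (f := fun i => ENNReal.ofReal (α i) • ν i)
      (fun _ _ => Measure.zero_le _) (mem_univ i)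
  have hq : ∀ a, ∑ i, α i * (ν i).real (cell ⁻¹' {a}) = lam.real (cell ⁻¹' {a}) := by
    intro a
    have := fun i => isFiniteMeasure_of_le lam (hle i)
    rw [← h5, Measure.real, Measure.finsetSum_apply,
      ENNReal.toReal_sum fun i _ => measure_ne_top _ _]
    apply Finset.sum_congr rfl
    intro i _
    rw [Measure.smul_apply, smul_eq_mul, ENNReal.toReal_mul, ENNReal.toReal_ofReal (h3 i)]
    rfl
  have hup := upper_fixed hM hη0 (min_le_left _ _) hγ0 (min_le_left _ _) hζ0 hδ0 le_rfl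
    (fun i a => α i * (ν i).real (cell ⁻¹' {a})) (fun i a => mul_nonneg (h3 i) measureReal_nonneg)
    (by simp only [hq]; rw [sum_cell hc]; simp) (fun i => α i * ph l (ν i) + ζ)
    (fun i => le_add_of_nonneg_left (mul_nonneg (h3 i) (h.pos.le.trans (h.m_le_ph _)))) lb
    (fun a b => (hlb a b).1)
    (fun i y hy => h.quad (ν i) (h3 i) (hle i) hc lb hlb hζ0 (hQ.trans (min_le_left _ _)) y hy)
  simp only [hq] at hup
  have hb := h.bm.absub (BM.cell hc lb)
  choose f f1 f2 f3 using cheb hc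
  have hnum : (∑ i, (α i * ph l (ν i) + ζ)) * (1 + 4 * η) + 12 * γ * M + γ ≤ (1 + ε) * Phi l := by
    have a1 : (∑ i, (α i * ph l (ν i) + ζ)) ≤ Phi l + s / 4 := by
      rw [Finset.sum_add_distrib, sum_const, card_univ, Fintype.card_fin, nsmul_eq_mul]
      have : (k + 1) * ζ = s / 8 := by rw [hζ]; field_simp
      linarith
    have a2 : η ≤ s / (16 * (Phi l + s)) := min_le_right _ _
    have a3 : γ ≤ s / (4 * (12 * M + 1)) := min_le_right _ _
    rw [le_div_iff₀ (by positivity)] at a2 a3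
    have a4 := mul_le_mul_of_nonneg_right a1 (by positivity : 0 ≤ 1 + 4 * η)
    nlinarith [mul_pos hη0 hs0]
  have t1 : Tendsto (fun n : ℕ => ((k : ℝ) + 1) * Real.exp (-(n : ℝ))) atTop (𝓝 0) := by
    simpa using (Real.tendsto_exp_neg_atTop_nhds_zero.comp
      tendsto_natCast_atTop_atTop).const_mul ((k : ℝ) + 1)
  have t2 := tendsto_const_div_atTop_nhds_zero_nat
    (∑ a, 1 / (γ * lam.real (cell ⁻¹' {a})) ^ 2)
  filter_upwards [hup, ev_log_ge 1, t1.eventually (ge_mem_nhds (by positivity : 0 < ε2 / 3)),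
    t2.eventually (ge_mem_nhds (by positivity : 0 < ε2 / 3))] with n g1 g2 g3 g4
  have hn : (0 : ℝ) < n := by rw [← exp_logn g2]; exact Real.exp_pos _
  have i1 : ∀ a, Integrable (fun x : Fin n → ℝ => (c2 (lx (f a) x) univ + n) /
      (γ * n * lam.real (cell ⁻¹' {a})) ^ 2) (piM n) := fun a =>
    ((f1 a).int_c2.add (integrable_const _)).div_const _
  have i2 := integrable_finsetSum univ fun a _ => i1 a
  have i3 := (hb.int_c2 (n := n)).div_const (δ * (n : ℝ) ^ 2)
  have key : PE l n (fun ω => I1 ((1 + ε) * (Phi l * n / (2 * Real.log n)) < chi ω)) ≤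
      ∫ x, (((k : ℝ) + 1) * Real.exp (-(n : ℝ)) + ∑ a, (c2 (lx (f a) x) univ + n) /
        (γ * n * lam.real (cell ⁻¹' {a})) ^ 2 +
        c2 (lx (fun x y => |l x y - lb (cell x) (cell y)|) x) univ / (δ * (n : ℝ) ^ 2))
        ∂(piM n) := by
    refine integral_mono (h.int_PE _) (((integrable_const _).add i2).add i3) fun x => ?_
    have p1 : ∀ a, 0 ≤ (c2 (lx (f a) x) univ + n) / (γ * n * lam.real (cell ⁻¹' {a})) ^ 2 :=
      fun a => div_nonneg ((sq_nonneg _).trans (f3 a n x)) (sq_nonneg _)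
    have p2 := Finset.sum_nonneg fun a (_ : a ∈ univ) => p1 a
    have p3 : 0 ≤ c2 (lx (fun x y => |l x y - lb (cell x) (cell y)|) x) univ / (δ * (n : ℝ) ^ 2) :=
      div_nonneg (c2_nonneg (fun _ _ => abs_nonneg _) _) (by positivity)
    have p4 : 0 ≤ ((k : ℝ) + 1) * Real.exp (-(n : ℝ)) := by positivity
    have p5 : Ex (pl (lx l x)) (fun ω =>
        I1 ((1 + ε) * (Phi l * n / (2 * Real.log n)) < chi ω)) ≤ 1 :=
      (Ex_mono (h.pl_mem x) fun ω => I1_le_one _).trans (Ex_const _ _).le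
    dsimp only
    by_cases c1 : ∀ a, (1 - γ) * n * lam.real (cell ⁻¹' {a}) ≤ cnt (fun v => cell (x v)) univ a
    swap
    · push Not at c1
      obtain ⟨a, ha⟩ := c1
      have a1 := Finset.single_le_sum (f := fun a => (c2 (lx (f a) x) univ + n) /
        (γ * n * lam.real (cell ⁻¹' {a})) ^ 2) (fun a _ => p1 a) (mem_univ a)
      have a2 : 0 < lam.real (cell ⁻¹' {a}) := by
        rcases (measureReal_nonneg (μ := lam) (s := cell ⁻¹' {a})).lt_or_eq with h | h
        · exact h
        · rw [← h, mul_zero] at ha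
          exact absurd ha (not_lt.2 (Nat.cast_nonneg _))
      have a3 : 1 ≤ (c2 (lx (f a) x) univ + n) / (γ * n * lam.real (cell ⁻¹' {a})) ^ 2 := by
        rw [one_le_div (by positivity)]
        refine le_trans ?_ (f3 a n x)
        have a4 : 0 < γ * n * lam.real (cell ⁻¹' {a}) := by positivity
        nlinarith
      linarith
    by_cases c2' : c2 (lx (fun x y => |l x y - lb (cell x) (cell y)|) x) univ ≤ δ * (n : ℝ) ^ 2
    swap
    · have a3 : 1 ≤ c2 (lx (fun x y => |l x y - lb (cell x) (cell y)|) x) univ /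
          (δ * (n : ℝ) ^ 2) := by
        rw [one_le_div (by positivity)]
        exact (not_le.1 c2').le
      linarith
    have a1 := g1 (lx l x) (fun v => cell (x v)) _ (fun _ _ => h.nonneg _ _) (fun _ _ => h.hi _ _)
      (fun _ _ => h.symm _ _) (fun _ _ => abs_nonneg _) (fun v w => by
        have := le_abs_self (l (x v) (x w) - lb (cell (x v)) (cell (x w)))
        simp only [lx]
        linarith) c1 c2'
    refine le_trans (le_trans (Ex_mono (h.pl_mem x) fun ω => I1_mono fun hω => ?_) a1) (by linarith)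
    refine lt_of_le_of_lt ?_ hω
    rw [← mul_div_assoc, ← mul_assoc]
    gcongr
  rw [integral_add (by exact (integrable_const _).add i2) i3, integral_add (integrable_const _) i2,
    integral_finsetSum _ fun a _ => i1 a, integral_div] at key
  simp only [integral_const, probReal_univ, smul_eq_mul, one_mul] at key
  have e1 : ∑ a, ∫ x, (c2 (lx (f a) x) univ + n) / (γ * n * lam.real (cell ⁻¹' {a})) ^ 2 ∂(piM n) ≤
      (∑ a, 1 / (γ * lam.real (cell ⁻¹' {a})) ^ 2) / n := by
    rw [Finset.sum_div]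
    apply Finset.sum_le_sum
    intro a _
    rw [integral_div, integral_add (f1 a).int_c2 (integrable_const _)]
    have a1 := int_c2_le (n := n) (f1 a) le_rfl (f2 a)
    simp only [integral_const, probReal_univ, smul_eq_mul, one_mul]
    calc _ ≤ n / (γ * n * lam.real (cell ⁻¹' {a})) ^ 2 :=
          div_le_div_of_nonneg_right (by linarith) (sq_nonneg _)
      _ = _ := by
        rcases eq_or_ne (lam.real (cell ⁻¹' {a})) 0 with h | h
        · simp [h]
        · field_simp
  have e2 : (∫ x, c2 (lx (fun x y => |l x y - lb (cell x) (cell y)|) x) univ ∂(piM n)) /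
      (δ * (n : ℝ) ^ 2) ≤ ε2 / 3 := by
    rw [div_le_iff₀ (by positivity)]
    refine (int_c2_le hb (by positivity) (hQ.trans (min_le_right _ _))).trans (le_of_eq ?_)
    ring
  linarith

end Pool.Agent.H550Z.Gr
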