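import Pool.Agent.H550Z.Gr.Ex

set_option autoImplicit false

open Finset

namespace Pool.Agent.H550Z.Gr

abbrev Ed (n : ℕ) : Type := {p : Fin n × Fin n // p.1 < p.2}

variable {n : ℕ}

noncomputable def pl (l : Fin n → Fin n → ℝ) (e : Ed n) : ℝ := 1 - Real.exp (-l e.1.1 e.1.2)

def ins (A : Finset (Fin n)) : Finset (Ed n) := univ.filter (fun e => e.1.1 ∈ A ∧ e.1.2 ∈ A)

noncomputable def cost (l : Fin n → Fin n → ℝ) (A : Finset (Fin n)) : ℝ :=
  ∑ e ∈ ins A, l e.1.1 e.1.2

noncomputable def c2 (l : Fin n → Fin n → ℝ) (A : Finset (Fin n)) : ℝ :=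
  ∑ v ∈ A, ∑ w ∈ A, if v = w then 0 else l v w

theorem pl_mem {l : Fin n → Fin n → ℝ} (hl : ∀ v w, 0 ≤ l v w) (e : Ed n) :
    0 ≤ pl l e ∧ pl l e ≤ 1 := by
  unfold pl
  have h1 : Real.exp (-l e.1.1 e.1.2) ≤ 1 := Real.exp_le_one_iff.2 (by linarith [hl e.1.1 e.1.2])
  have h2 := Real.exp_pos (-l e.1.1 e.1.2)
  constructor <;> linarith

theorem PP_ins (l : Fin n → Fin n → ℝ) (A : Finset (Fin n)) :
    PP (pl l) (ins A) = Real.exp (-cost l A) := by
  unfold PP cost pl
  rw [← Finset.sum_neg_distrib, Real.exp_sum]
  apply Finset.prod_congr rfl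
  intro e _
  ring

theorem ins_inter (A B : Finset (Fin n)) : ins (A ∩ B) = ins A ∩ ins B := by
  ext e
  simp only [ins, mem_filter, mem_univ, true_and, mem_inter]
  tauto

theorem cost_eq (l : Fin n → Fin n → ℝ) (A : Finset (Fin n)) :
    cost l A = ∑ v ∈ A, ∑ w ∈ A, if v < w then l v w else 0 := by
  unfold cost ins
  rw [← Finset.sum_product', ← Finset.sum_filter]
  apply Finset.sum_bij (fun e _ => e.1)
  · intro e he
    simp only [mem_filter, mem_univ, true_and] at he
    simp only [mem_filter, mem_product]
    exact ⟨he, e.2⟩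
  · intro e _ e' _ h
    exact Subtype.ext h
  · intro q hq
    simp only [mem_filter, mem_product] at hq
    exact ⟨⟨q, hq.2⟩, by simpa using hq.1, rfl⟩
  · intro e _
    rfl

theorem two_cost {l : Fin n → Fin n → ℝ} (hs : ∀ v w, l v w = l w v) (A : Finset (Fin n)) :
    2 * cost l A = c2 l A := by
  have h1 := cost_eq l A
  have h2 : cost l A = ∑ v ∈ A, ∑ w ∈ A, if w < v then l v w else 0 := by
    rw [h1, Finset.sum_comm]
    apply Finset.sum_congr rfl
    intro v _
    apply Finset.sum_congr rfl
    intro w _
    rw [hs w v]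
  rw [two_mul]
  nth_rewrite 1 [h1]
  rw [h2, ← Finset.sum_add_distrib]
  unfold c2
  apply Finset.sum_congr rfl
  intro v _
  rw [← Finset.sum_add_distrib]
  apply Finset.sum_congr rfl
  intro w _
  rcases lt_trichotomy v w with h | h | h
  · simp [h, h.ne, not_lt.2 h.le]
  · simp [h]
  · simp [h, h.ne', not_lt.2 h.le]

theorem two_le_card_of_ins {A : Finset (Fin n)} (h : (ins A).Nonempty) : 2 ≤ A.card := by
  obtain ⟨e, he⟩ := h
  simp only [ins, mem_filter, mem_univ, true_and] at he
  exact Finset.one_lt_card.2 ⟨_, he.1, _, he.2, e.2.ne⟩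

section Slots

variable {S : Type} [Fintype S] [DecidableEq S] {r : ℕ}

def img (e : S × Fin r → Fin n) (g : S → Fin r) (J : Finset S) : Finset (Fin n) :=
  J.image (fun σ => e (σ, g σ))

theorem img_card {e : S × Fin r → Fin n} (he : Function.Injective e) (g : S → Fin r)
    (J : Finset S) : (img e g J).card = J.card := by
  unfold img
  apply Finset.card_image_of_injective
  intro a b h
  exact congrArg Prod.fst (he h)

theorem img_inter {e : S × Fin r → Fin n} (he : Function.Injective e) (f g : S → Fin r) :
    img e f univ ∩ img e g univ = img e f (univ.filter fun σ => g σ = f σ) := by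
  ext v
  simp only [img, mem_inter, mem_image, mem_univ, true_and, mem_filter]
  constructor
  · rintro ⟨⟨a, ha⟩, ⟨b, hb⟩⟩
    have := he (ha.trans hb.symm)
    have h1 : a = b := congrArg Prod.fst this
    have h2 : f a = g b := congrArg Prod.snd this
    subst h1
    exact ⟨a, h2.symm, ha⟩
  · rintro ⟨a, h1, h2⟩
    exact ⟨⟨a, h2⟩, ⟨a, by rw [h1]; exact h2⟩⟩

theorem card_agree (f : S → Fin r) (J : Finset S) :
    ((univ.filter fun g : S → Fin r => (univ.filter fun σ => g σ = f σ) = J).card : ℝ) *
      (r : ℝ) ^ J.card ≤ (r : ℝ) ^ Fintype.card S := by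
  have h1 : (univ.filter fun g : S → Fin r => (univ.filter fun σ => g σ = f σ) = J) ⊆
      Fintype.piFinset (fun σ => if σ ∈ J then {f σ} else univ) := by
    intro g hg
    rw [Fintype.mem_piFinset]
    intro σ
    split_ifs with h
    · rw [← (mem_filter.1 hg).2] at h
      simpa using h
    · exact mem_univ _
  have h2 := Finset.card_le_card h1
  rw [Fintype.card_piFinset] at h2
  have h3 : (∏ σ, (if σ ∈ J then ({f σ} : Finset (Fin r)) else univ).card) * r ^ J.card =
      r ^ Fintype.card S := by
    have a1 : r ^ J.card = ∏ σ, if σ ∈ J then r else 1 := by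
      rw [Finset.prod_ite_mem, univ_inter, prod_const]
    rw [a1, ← Finset.prod_mul_distrib, ← Finset.card_univ, ← prod_const]
    apply Finset.prod_congr rfl
    intro σ _
    split_ifs <;> simp
  have h4 := Nat.mul_le_mul_right (r ^ J.card) h2
  rw [h3] at h4
  exact_mod_cast h4

theorem sum_pow_card_le {kk : ℝ} (hk : 0 < kk) (hS : (Fintype.card S : ℝ) ≤ kk) :
    ∑ J : Finset S, (1 / kk) ^ J.card ≤ 3 := by
  have h1 := Finset.prod_one_add (f := fun _ : S => 1 / kk) univ
  rw [Finset.powerset_univ] at h1
  simp only [prod_const] at h1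
  rw [← h1, Finset.card_univ]
  have h2 : (1 + 1 / kk) ^ Fintype.card S ≤ Real.exp (1 / kk) ^ Fintype.card S := by
    apply pow_le_pow_left₀ (by positivity)
    linarith [Real.add_one_le_exp (1 / kk)]
  rw [← Real.exp_nat_mul] at h2
  have h3 : (Fintype.card S : ℝ) * (1 / kk) ≤ 1 := by
    rw [mul_one_div, div_le_one hk]; exact hS
  have h4 := Real.exp_le_exp.2 h3
  have h5 := Real.exp_one_lt_d9
  linarith

theorem trans_bound {l : Fin n → Fin n → ℝ} (hl : ∀ v w, 0 ≤ l v w) (hr : 0 < r)
    {e : S × Fin r → Fin n} (he : Function.Injective e) (F : Finset (S → Fin r))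
    (hF : (r : ℝ) ^ Fintype.card S ≤ 2 * F.card) {kk B : ℝ} (hk : 0 < kk)
    (hS : (Fintype.card S : ℝ) ≤ kk) (hB : 0 < B)
    (hc : ∀ g ∈ F, ∀ J : Finset S, 2 ≤ J.card →
      Real.exp (cost l (img e g J)) ≤ B * ((r : ℝ) / kk) ^ J.card) :
    Ex (pl l) (fun ω => I1 (∀ g ∈ F, ind (ins (img e g univ)) ω = 0)) ≤
      Real.exp (-(1 / (24 * B))) := by
  have hr' : (0 : ℝ) < r := by exact_mod_cast hr
  have hF0 : (0 : ℝ) < F.card := by
    have := pow_pos hr' (Fintype.card S)
    linarith
  set s : ℝ := 1 / (12 * B) with hs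
  have hs0 : 0 < s := by positivity
  refine (janson (pl_mem hl) (fun g => ins (img e g univ))
    (fun g => s / F.card * Real.exp (cost l (img e g univ))) (fun g => by positivity) F).trans
    (Real.exp_le_exp.2 ?_)
  have h1 : ∑ f ∈ F, s / F.card * Real.exp (cost l (img e f univ)) *
      PP (pl l) (ins (img e f univ)) = s := by
    rw [Finset.sum_congr rfl (g := fun _ => s / F.card)]
    · rw [sum_const, nsmul_eq_mul]; field_simp
    · intro f _
      rw [PP_ins, mul_assoc, ← Real.exp_add]; simp
  have h2 : ∀ f ∈ F, (∑ g ∈ F, if ¬ Disjoint (ins (img e f univ)) (ins (img e g univ)) then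
      s / F.card * Real.exp (cost l (img e f univ)) *
        (s / F.card * Real.exp (cost l (img e g univ))) *
        PP (pl l) (ins (img e f univ) ∪ ins (img e g univ)) else 0) ≤
      (s / F.card) ^ 2 * (6 * B * F.card) := by
    intro f hf
    have a1 : ∀ g : S → Fin r, (if ¬ Disjoint (ins (img e f univ)) (ins (img e g univ)) then
        s / F.card * Real.exp (cost l (img e f univ)) *
          (s / F.card * Real.exp (cost l (img e g univ))) *
          PP (pl l) (ins (img e f univ) ∪ ins (img e g univ)) else 0) ≤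
        (s / F.card) ^ 2 * (B * ((r : ℝ) / kk) ^ (univ.filter fun σ => g σ = f σ).card) := by
      intro g
      split_ifs with hd
      · positivity
      · have b1 := Finset.prod_union_inter (s₁ := ins (img e f univ)) (s₂ := ins (img e g univ))
          (f := fun e => 1 - pl l e)
        change PP _ _ * PP _ _ = PP _ _ * PP _ _ at b1
        rw [← ins_inter, PP_ins, PP_ins, PP_ins, img_inter he] at b1
        have b2 : 2 ≤ (univ.filter fun σ => g σ = f σ).card := by
          rw [← img_card he f, ← img_inter he]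
          apply two_le_card_of_ins
          rw [ins_inter]
          exact Finset.not_disjoint_iff_nonempty_inter.1 hd
        have b3 := hc f hf _ b2
        have b4 : Real.exp (cost l (img e f univ)) * Real.exp (cost l (img e g univ)) *
            PP (pl l) (ins (img e f univ) ∪ ins (img e g univ)) =
            Real.exp (cost l (img e f (univ.filter fun σ => g σ = f σ))) := by
          have c1 : PP (pl l) (ins (img e f univ) ∪ ins (img e g univ)) =
              Real.exp (-cost l (img e f univ)) * Real.exp (-cost l (img e g univ)) *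
              Real.exp (cost l (img e f (univ.filter fun σ => g σ = f σ))) := by
            rw [← b1, mul_assoc, ← Real.exp_add]; simp
          rw [c1, ← Real.exp_add, ← Real.exp_add, ← Real.exp_add, ← Real.exp_add]
          congr 1; ring
        calc _ = (s / F.card) ^ 2 * (Real.exp (cost l (img e f univ)) *
              Real.exp (cost l (img e g univ)) *
              PP (pl l) (ins (img e f univ) ∪ ins (img e g univ))) := by ring
          _ ≤ _ := by rw [b4]; exact mul_le_mul_of_nonneg_left b3 (by positivity)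
    have a2 : ∑ g : S → Fin r, ((r : ℝ) / kk) ^ (univ.filter fun σ => g σ = f σ).card ≤
        6 * F.card := by
      rw [← Finset.sum_fiberwise (s := univ) (g := fun g : S → Fin r =>
        univ.filter fun σ => g σ = f σ)]
      have c1 : ∀ J : Finset S, ∑ g ∈ univ.filter (fun g : S → Fin r =>
          (univ.filter fun σ => g σ = f σ) = J),
          ((r : ℝ) / kk) ^ (univ.filter fun σ => g σ = f σ).card ≤
          (r : ℝ) ^ Fintype.card S * (1 / kk) ^ J.card := by
        intro J
        rw [Finset.sum_congr rfl (g := fun _ => ((r : ℝ) / kk) ^ J.card)]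
        · rw [sum_const, nsmul_eq_mul, div_eq_mul_one_div, mul_pow, ← mul_assoc]
          exact mul_le_mul_of_nonneg_right (card_agree f J) (by positivity)
        · intro g hg
          rw [(mem_filter.1 hg).2]
      refine (Finset.sum_le_sum fun J _ => c1 J).trans ?_
      rw [← Finset.mul_sum]
      have c2 := sum_pow_card_le hk hS
      have c3 := pow_pos hr' (Fintype.card S)
      nlinarith
    refine (Finset.sum_le_sum fun g _ => a1 g).trans ?_
    rw [← Finset.mul_sum, ← Finset.mul_sum]
    apply mul_le_mul_of_nonneg_left _ (by positivity)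
    have a3 : ∑ g ∈ F, ((r : ℝ) / kk) ^ (univ.filter fun σ => g σ = f σ).card ≤
        ∑ g : S → Fin r, ((r : ℝ) / kk) ^ (univ.filter fun σ => g σ = f σ).card :=
      Finset.sum_le_sum_of_subset_of_nonneg (subset_univ _) fun g _ _ => by positivity
    nlinarith
  have h3 := Finset.sum_le_sum h2
  rw [sum_const, nsmul_eq_mul] at h3
  rw [h1]
  refine le_trans (add_le_add le_rfl h3) (le_of_eq ?_)
  rw [hs]
  field_simp
  ring

/-- Markov: at least half of the transversals have small total error. -/
theorem markov_half (hr : 0 < r) {e : S × Fin r → Fin n} (he : Function.Injective e)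
    (h : Fin n → Fin n → ℝ) (hh : ∀ v w, 0 ≤ h v w) {H : ℝ} (hH0 : 0 < H)
    (hH : c2 h univ ≤ H) :
    (r : ℝ) ^ Fintype.card S ≤ 2 * ((univ.filter fun g : S → Fin r =>
      c2 h (img e g univ) ≤ 2 * H / (r : ℝ) ^ 2).card : ℝ) := by
  have hr' : (0 : ℝ) < r := by exact_mod_cast hr
  have hc2 : ∀ g : S → Fin r, c2 h (img e g univ) =
      ∑ σ, ∑ τ, if σ = τ then 0 else h (e (σ, g σ)) (e (τ, g τ)) := by
    intro g
    have inj : Function.Injective fun σ => e (σ, g σ) := fun a b hab =>
      congrArg Prod.fst (he hab)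
    unfold c2 img
    rw [Finset.sum_image fun a _ b _ hab => inj hab]
    apply Finset.sum_congr rfl
    intro σ _
    rw [Finset.sum_image fun a _ b _ hab => inj hab]
    apply Finset.sum_congr rfl
    intro τ _
    simp only [inj.eq_iff (a := σ) (b := τ)]
  -- total sum
  have htot : (∑ g : S → Fin r, c2 h (img e g univ)) * (r : ℝ) ^ 2 ≤
      (r : ℝ) ^ Fintype.card S * H := by
    simp_rw [hc2]
    rw [Finset.sum_comm, Finset.sum_mul]
    have a1 : ∀ σ τ : S, (∑ g : S → Fin r, if σ = τ then 0 else h (e (σ, g σ)) (e (τ, g τ))) *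
        (r : ℝ) ^ 2 ≤ (r : ℝ) ^ Fintype.card S *
        ∑ s : Fin r, ∑ t : Fin r, if σ = τ then 0 else h (e (σ, s)) (e (τ, t)) := by
      intro σ τ
      by_cases hst : σ = τ
      · simp [hst]
      simp only [hst, if_false]
      rw [← Finset.sum_fiberwise (s := univ) (g := fun g : S → Fin r => (g σ, g τ)),
        ← Finset.sum_product', Finset.univ_product_univ, Finset.sum_mul, Finset.mul_sum]
      apply Finset.sum_le_sum
      intro q _
      rw [Finset.sum_congr rfl (g := fun _ => h (e (σ, q.1)) (e (τ, q.2)))]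
      swap
      · intro g hg
        rw [← (mem_filter.1 hg).2]
      rw [sum_const, nsmul_eq_mul, mul_right_comm]
      apply mul_le_mul_of_nonneg_right _ (hh _ _)
      have b1 : (univ.filter fun g : S → Fin r => (g σ, g τ) = q) ⊆
          Fintype.piFinset (fun ρ => if ρ = σ then {q.1} else if ρ = τ then {q.2} else univ) := by
        intro g hg
        rw [Fintype.mem_piFinset]
        intro ρ
        have := (mem_filter.1 hg).2
        split_ifs with h1 h2
        · rw [h1, ← this]; simp
        · rw [h2, ← this]; simp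
        · exact mem_univ _
      have b2 := Finset.card_le_card b1
      rw [Fintype.card_piFinset] at b2
      have b3 : (∏ ρ, (if ρ = σ then ({q.1} : Finset (Fin r)) else if ρ = τ then {q.2}
          else univ).card) * r ^ 2 = r ^ Fintype.card S := by
        have c1 : r ^ 2 = ∏ ρ, if ρ ∈ ({σ, τ} : Finset S) then r else 1 := by
          rw [Finset.prod_ite_mem, univ_inter, prod_const, Finset.card_pair hst]
        rw [c1, ← Finset.prod_mul_distrib, ← Finset.card_univ, ← prod_const]
        apply Finset.prod_congr rfl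
        intro ρ _
        by_cases h1 : ρ = σ
        · simp [h1]
        · by_cases h2 : ρ = τ
          · simp [h2, Ne.symm hst]
          · simp [h1, h2]
      have b4 := Nat.mul_le_mul_right (r ^ 2) b2
      rw [b3] at b4
      exact_mod_cast b4
    have a2 : ∑ σ : S, (∑ g : S → Fin r, ∑ τ : S,
        if σ = τ then 0 else h (e (σ, g σ)) (e (τ, g τ))) * (r : ℝ) ^ 2 ≤
        ∑ σ : S, (r : ℝ) ^ Fintype.card S * ∑ τ : S,
        ∑ s : Fin r, ∑ t : Fin r, if σ = τ then 0 else h (e (σ, s)) (e (τ, t)) := by
      apply Finset.sum_le_sum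
      intro σ _
      rw [Finset.sum_comm, Finset.sum_mul, Finset.mul_sum]
      exact Finset.sum_le_sum fun τ _ => a1 σ τ
    refine a2.trans ?_
    rw [← Finset.mul_sum]
    apply mul_le_mul_of_nonneg_left _ (by positivity)
    refine le_trans ?_ hH
    have a3 : ∑ σ : S, ∑ τ : S, ∑ s : Fin r, ∑ t : Fin r,
        (if σ = τ then 0 else h (e (σ, s)) (e (τ, t))) ≤
        ∑ x : S × Fin r, ∑ y : S × Fin r, if e x = e y then 0 else h (e x) (e y) := by
      rw [Fintype.sum_prod_type]
      apply Finset.sum_le_sum
      intro σ _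
      rw [Finset.sum_comm]
      apply Finset.sum_le_sum
      intro s _
      rw [Fintype.sum_prod_type]
      apply Finset.sum_le_sum
      intro τ _
      apply Finset.sum_le_sum
      intro t _
      by_cases hst : σ = τ
      · rw [if_pos hst]; split_ifs
        · exact le_rfl
        · exact hh _ _
      · rw [if_neg hst, if_neg]
        exact fun hc => hst (congrArg Prod.fst (he hc))
    refine a3.trans ?_
    have a4 : ∑ x : S × Fin r, ∑ y : S × Fin r, (if e x = e y then 0 else h (e x) (e y)) =
        c2 h (univ.image e) := by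
      unfold c2
      rw [Finset.sum_image fun a _ b _ hab => he hab]
      apply Finset.sum_congr rfl
      intro x _
      rw [Finset.sum_image fun a _ b _ hab => he hab]
    rw [a4]
    unfold c2
    have hn : ∀ v w, 0 ≤ (if v = w then 0 else h v w) := fun v w => by
      split_ifs
      · exact le_rfl
      · exact hh v w
    refine le_trans (Finset.sum_le_sum fun v _ =>
      Finset.sum_le_sum_of_subset_of_nonneg (subset_univ _) fun w _ _ => hn v w) ?_
    exact Finset.sum_le_sum_of_subset_of_nonneg (subset_univ _) fun v _ _ =>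
      Finset.sum_nonneg fun w _ => hn v w
  set T := 2 * H / (r : ℝ) ^ 2 with hT
  have hnn : ∀ g : S → Fin r, 0 ≤ c2 h (img e g univ) := by
    intro g
    apply Finset.sum_nonneg
    intro v _
    apply Finset.sum_nonneg
    intro w _
    split_ifs
    · exact le_rfl
    · exact hh v w
  have hbad : ((univ.filter fun g : S → Fin r => ¬ c2 h (img e g univ) ≤ T).card : ℝ) * T ≤
      ∑ g : S → Fin r, c2 h (img e g univ) := by
    refine le_trans ?_ (Finset.sum_le_sum_of_subset_of_nonneg
      (filter_subset (fun g : S → Fin r => ¬ c2 h (img e g univ) ≤ T) _) fun g _ _ => hnn g)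
    rw [← nsmul_eq_mul, ← sum_const]
    exact Finset.sum_le_sum fun g hg => (not_le.1 (mem_filter.1 hg).2).le
  have hcard := Finset.card_filter_add_card_filter_not (s := (univ : Finset (S → Fin r)))
    (fun g => c2 h (img e g univ) ≤ T)
  rw [Finset.card_univ, Fintype.card_fun, Fintype.card_fin] at hcard
  have hcard' : ((univ.filter fun g : S → Fin r => c2 h (img e g univ) ≤ T).card : ℝ) +
      ((univ.filter fun g : S → Fin r => ¬ c2 h (img e g univ) ≤ T).card : ℝ) =
      (r : ℝ) ^ Fintype.card S := by exact_mod_cast hcard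
  have hT2 : T * (r : ℝ) ^ 2 = 2 * H := by rw [hT]; field_simp
  have h5 := mul_le_mul_of_nonneg_right hbad (sq_nonneg (r : ℝ))
  rw [mul_assoc, hT2] at h5
  have h6 : ((univ.filter fun g : S → Fin r => ¬ c2 h (img e g univ) ≤ T).card : ℝ) * 2 ≤
      (r : ℝ) ^ Fintype.card S := by
    have := h5.trans htot
    rw [← mul_assoc] at this
    exact le_of_mul_le_mul_right this hH0
  linarith

end Slots

end Pool.Agent.H550Z.Gr
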